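import Mathlib

namespace Pool.Agent.Lib.MP_3b72de_co

open Polynomial Finset

noncomputable def nrm (f : ℚ[X]) : ℚ := ∑ j ∈ range (f.natDegree + 1), |f.coeff j|

theorem nrm_eq (f : ℚ[X]) {n : ℕ} (h : f.natDegree < n) :
    nrm f = ∑ j ∈ range n, |f.coeff j| := by
  unfold nrm
  apply Finset.sum_subset (Finset.range_subset_range.2 h)
  intro j _ hj
  rw [Finset.mem_range, not_lt] at hj
  rw [coeff_eq_zero_of_natDegree_lt (by omega), abs_zero]

theorem nrm_nonneg (f : ℚ[X]) : 0 ≤ nrm f := Finset.sum_nonneg fun _ _ => abs_nonneg _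

theorem sum_le_nrm (f : ℚ[X]) (n : ℕ) : ∑ j ∈ range n, |f.coeff j| ≤ nrm f := by
  rw [nrm_eq f (n := n + f.natDegree + 1) (by omega)]
  exact Finset.sum_le_sum_of_subset_of_nonneg (Finset.range_subset_range.2 (by omega))
    fun _ _ _ => abs_nonneg _

theorem nrm_add_le (f g : ℚ[X]) : nrm (f + g) ≤ nrm f + nrm g := by
  unfold nrm
  refine le_trans ?_ (add_le_add (sum_le_nrm f ((f + g).natDegree + 1))
    (sum_le_nrm g ((f + g).natDegree + 1)))
  rw [← Finset.sum_add_distrib]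
  exact Finset.sum_le_sum fun j _ => by rw [coeff_add]; exact abs_add_le _ _

theorem nrm_neg (f : ℚ[X]) : nrm (-f) = nrm f := by simp [nrm]

theorem nrm_sub_le (f g : ℚ[X]) : nrm (f - g) ≤ nrm f + nrm g := by
  rw [sub_eq_add_neg, ← nrm_neg g]; exact nrm_add_le _ _

theorem nrm_C_mul (c : ℚ) (f : ℚ[X]) : nrm (C c * f) ≤ |c| * nrm f := by
  refine le_trans ?_ (mul_le_mul_of_nonneg_left (sum_le_nrm f ((C c * f).natDegree + 1))
    (abs_nonneg c))
  unfold nrm
  rw [Finset.mul_sum]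
  exact Finset.sum_le_sum fun j _ => by rw [coeff_C_mul, abs_mul]

theorem shift_le (f : ℚ[X]) (c n : ℕ) :
    ∑ j ∈ range c, |f.coeff j| + ∑ j ∈ range n, |f.coeff (c + j)| ≤ nrm f := by
  rw [← Finset.sum_range_add (fun j => |f.coeff j|)]; exact sum_le_nrm _ _

theorem shift_eq (f : ℚ[X]) (c n : ℕ) (h : f.natDegree < n) :
    ∑ j ∈ range c, |f.coeff j| + ∑ j ∈ range n, |f.coeff (c + j)| = nrm f := by
  rw [← Finset.sum_range_add (fun j => |f.coeff j|), nrm_eq f (n := c + n) (by omega)]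

theorem eval_half_le (f : ℚ[X]) (h0 : f.coeff 0 = 0) (h1 : f.coeff 1 = 0) :
    |f.eval (1 / 2)| ≤ nrm f / 4 := by
  rw [eval_eq_sum_range, nrm, Finset.sum_div]
  refine (Finset.abs_sum_le_sum_abs _ _).trans (Finset.sum_le_sum fun j _ => ?_)
  match j with
  | 0 => simp [h0]
  | 1 => simp [h1]
  | j + 2 =>
    rw [abs_mul, abs_of_nonneg (by positivity : (0 : ℚ) ≤ (1 / 2) ^ (j + 2)), pow_add]
    have : (1 / 2 : ℚ) ^ j ≤ 1 := pow_le_one₀ (by norm_num) (by norm_num)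
    nlinarith [abs_nonneg (f.coeff (j + 2))]

noncomputable def K (f : ℚ[X]) : ℚ[X] := C (1 / 2) * X ^ 2 * (f /ₘ (X - C (1 / 2)))

theorem K_spec (f : ℚ[X]) : (C 2 * X - 1) * K f = X ^ 2 * (f - C (f.eval (1 / 2))) := by
  have h := X_sub_C_mul_divByMonic_eq_sub_modByMonic f (1 / 2 : ℚ)
  rw [modByMonic_X_sub_C_eq_C_eval] at h
  have h2 : (C 2 : ℚ[X]) * C (1 / 2) = 1 := by rw [← C_mul]; norm_num
  rw [← h, K]
  linear_combination (X ^ 3 * (f /ₘ (X - C (1 / 2)))) * h2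

theorem two_X_ne : (C 2 * X - 1 : ℚ[X]) ≠ 0 := by
  intro h
  have := congrArg (eval 0) h
  simp at this

theorem K_unique {f k : ℚ[X]} (h : (C 2 * X - 1) * k = X ^ 2 * (f - C (f.eval (1 / 2)))) :
    K f = k := mul_left_cancel₀ two_X_ne ((K_spec f).trans h.symm)

theorem K_add (f g : ℚ[X]) : K (f + g) = K f + K g := by
  apply K_unique
  rw [mul_add, K_spec, K_spec, eval_add, C_add]; ring

theorem K_sub (f g : ℚ[X]) : K (f - g) = K f - K g := by
  apply K_unique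
  rw [mul_sub, K_spec, K_spec, eval_sub, C_sub]; ring

theorem K_C_mul (c : ℚ) (f : ℚ[X]) : K (C c * f) = C c * K f := by
  apply K_unique
  rw [mul_left_comm, K_spec, eval_mul, eval_C, C_mul]; ring

theorem K_coeff_zero (f : ℚ[X]) : (K f).coeff 0 = 0 := by
  simp [K, mul_assoc]

theorem K_coeff_one (f : ℚ[X]) : (K f).coeff 1 = 0 := by
  simp [K, mul_assoc, coeff_X_pow_mul']

theorem K_coeff_two (f : ℚ[X]) : (K f).coeff 2 = f.eval (1 / 2) - f.coeff 0 := by
  have h := congrArg (fun p => p.coeff 2) (K_spec f)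
  simp only [sub_mul, mul_assoc, coeff_sub, coeff_C_mul, one_mul, coeff_X_pow_mul',
    coeff_X_mul, K_coeff_one] at h
  simp at h ⊢
  linarith

theorem K_coeff (f : ℚ[X]) (l : ℕ) :
    2 * (K f).coeff (l + 2) = f.coeff (l + 1) + (K f).coeff (l + 3) := by
  have h := congrArg (fun p => p.coeff (l + 3)) (K_spec f)
  simp only [sub_mul, mul_assoc, coeff_sub, coeff_C_mul, one_mul, coeff_X_pow_mul',
    coeff_X_mul] at h
  simp [coeff_C_succ] at h
  linarith

theorem K_natDegree {f : ℚ[X]} {n : ℕ} (h : f.natDegree ≤ n) : (K f).natDegree ≤ n + 1 := by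
  rcases Nat.eq_zero_or_pos n with rfl | hn
  · have : K f = 0 := by
      apply K_unique
      rw [eq_C_of_natDegree_le_zero h]; simp
    simp [this]
  · have h1 : (f /ₘ (X - C (1 / 2 : ℚ))).natDegree ≤ n - 1 := by
      rw [natDegree_divByMonic _ (monic_X_sub_C _), natDegree_X_sub_C]; omega
    unfold K
    refine natDegree_mul_le.trans ?_
    have : (C (1 / 2 : ℚ) * X ^ 2).natDegree ≤ 2 := natDegree_C_mul_X_pow_le _ _
    omega

theorem K_contr (f : ℚ[X]) : nrm (K f) + |f.eval (1 / 2)| ≤ nrm f := by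
  set n := (K f).natDegree + 1 with hn
  have h2 := shift_eq (K f) 2 n (by omega)
  have h3 := shift_eq (K f) 3 n (by omega)
  have h1 := shift_le f 1 n
  have h4 : 2 * ∑ j ∈ range n, |(K f).coeff (2 + j)| ≤
      ∑ j ∈ range n, |f.coeff (1 + j)| + ∑ j ∈ range n, |(K f).coeff (3 + j)| := by
    rw [Finset.mul_sum, ← Finset.sum_add_distrib]
    refine Finset.sum_le_sum fun j _ => ?_
    have := K_coeff f j
    rw [add_comm 2, add_comm 1, add_comm 3]
    calc 2 * |(K f).coeff (j + 2)| = |2 * (K f).coeff (j + 2)| := by rw [abs_mul]; norm_num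
      _ ≤ _ := by rw [this]; exact abs_add_le _ _
  simp only [Finset.sum_range_succ, Finset.range_zero, Finset.sum_empty, K_coeff_zero,
    K_coeff_one, abs_zero, zero_add, K_coeff_two] at h1 h2 h3
  have h5 : |f.eval (1 / 2)| ≤ |f.eval (1 / 2) - f.coeff 0| + |f.coeff 0| := by
    have := abs_add_le (f.eval (1 / 2) - f.coeff 0) (f.coeff 0)
    rwa [sub_add_cancel] at this
  linarith

theorem K_inv (f : ℚ[X]) : nrm (K f) ≤ nrm (f + K f) := by
  set k := K f with hk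
  set h := f + k with hh
  have r : ∀ l, 2 * k.coeff (l + 2) = h.coeff (l + 1) - k.coeff (l + 1) + k.coeff (l + 3) := by
    intro l
    rw [hh, coeff_add, hk, K_coeff]; ring
  set n := k.natDegree + 1 with hn
  have k3 := shift_eq k 3 n (by omega)
  have k5 := shift_le k 5 n
  have k1 := shift_le k 1 n
  have h1 := shift_le h 1 n
  have h2 := shift_le h 2 n
  have h3 := shift_le h 3 n
  have e1 : 6 * ∑ j ∈ range n, |k.coeff (3 + j)| ≤
      ∑ j ∈ range n, |k.coeff (5 + j)| + ∑ j ∈ range n, |k.coeff (1 + j)| +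
      ∑ j ∈ range n, |h.coeff (3 + j)| + 2 * ∑ j ∈ range n, |h.coeff (2 + j)| +
      ∑ j ∈ range n, |h.coeff (1 + j)| := by
    simp only [Finset.mul_sum, ← Finset.sum_add_distrib]
    refine Finset.sum_le_sum fun j _ => ?_
    have a := r j
    have b := r (j + 1)
    have c := r (j + 2)
    rw [add_comm 5, add_comm 3, add_comm 2, add_comm 1]
    simp only [add_assoc, Nat.reduceAdd] at a b c
    rw [← sub_nonneg]
    have p1 := le_abs_self (k.coeff (j + 5))
    have p2 := le_abs_self (k.coeff (j + 1))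
    have p3 := le_abs_self (h.coeff (j + 3))
    have p4 := le_abs_self (h.coeff (j + 2))
    have p5 := le_abs_self (h.coeff (j + 1))
    have q1 := neg_abs_le (k.coeff (j + 5))
    have q2 := neg_abs_le (k.coeff (j + 1))
    have q3 := neg_abs_le (h.coeff (j + 3))
    have q4 := neg_abs_le (h.coeff (j + 2))
    have q5 := neg_abs_le (h.coeff (j + 1))
    rcases abs_cases (k.coeff (j + 3)) with ⟨e, -⟩ | ⟨e, -⟩ <;> rw [e] <;> linarith
  have z0 : k.coeff 0 = 0 := K_coeff_zero f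
  have z1 : k.coeff 1 = 0 := K_coeff_one f
  have e2 : 5 * |k.coeff 2| ≤ |k.coeff 4| + |h.coeff 2| + 2 * |h.coeff 1| := by
    have a := r 0
    have b := r 1
    simp only [zero_add, Nat.reduceAdd, z1] at a b
    have p1 := le_abs_self (k.coeff 4)
    have p2 := le_abs_self (h.coeff 2)
    have p3 := le_abs_self (h.coeff 1)
    have q1 := neg_abs_le (k.coeff 4)
    have q2 := neg_abs_le (h.coeff 2)
    have q3 := neg_abs_le (h.coeff 1)
    rcases abs_cases (k.coeff 2) with ⟨e, -⟩ | ⟨e, -⟩ <;> rw [e] <;> linarith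
  simp only [Finset.sum_range_succ, Finset.range_zero, Finset.sum_empty, z0, z1, abs_zero,
    zero_add] at k3 k5 k1 h1 h2 h3
  linarith [abs_nonneg (h.coeff 0), abs_nonneg (h.coeff 1), abs_nonneg (h.coeff 2),
    abs_nonneg (k.coeff 3)]

/-- The next term of the recurrence. -/
noncomputable def nxt (G0 G1 : ℚ[X]) : ℚ[X] :=
  G1 - K (G1 - C (G1.eval (1 / 2) / G0.eval (1 / 2)) * G0)

structure Inv (B : ℚ[X]) (m : ℕ) (G0 G1 : ℚ[X]) : Prop where
  d0 : G0.natDegree ≤ m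
  d1 : G1.natDegree ≤ m + 1
  c00 : G0.coeff 0 = B.coeff 0
  c01 : G0.coeff 1 = B.coeff 1
  c10 : G1.coeff 0 = B.coeff 0
  c11 : G1.coeff 1 = B.coeff 1
  pot : nrm (G1 + K G0 - (B + K B)) + 2 * nrm (G1 - G0) ≤ 1 / 8

theorem Inv.close {B G0 G1 : ℚ[X]} {m : ℕ} (h : Inv B m G0 G1) :
    nrm (K (G0 - B)) ≤ 1 / 8 ∧ nrm (G0 - B) ≤ 1 / 4 := by
  have h1 : nrm (G0 - B + K (G0 - B)) ≤ 1 / 8 := by
    have : G0 - B + K (G0 - B) = (G1 + K G0 - (B + K B)) - (G1 - G0) := by rw [K_sub]; ring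
    rw [this]
    linarith [nrm_sub_le (G1 + K G0 - (B + K B)) (G1 - G0), nrm_nonneg (G1 - G0), h.pot]
  have h2 := (K_inv (G0 - B)).trans h1
  refine ⟨h2, ?_⟩
  have := nrm_sub_le (G0 - B + K (G0 - B)) (K (G0 - B))
  rw [add_sub_cancel_right] at this
  linarith

theorem Inv.eval {B G0 G1 : ℚ[X]} {m : ℕ} (h : Inv B m G0 G1) :
    B.eval (1 / 2) - 1 / 16 ≤ G0.eval (1 / 2) := by
  have h1 := eval_half_le (G0 - B) (by simp [h.c00]) (by simp [h.c01])
  rw [eval_sub] at h1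
  linarith [h.close.2, neg_abs_le (G0.eval (1 / 2) - B.eval (1 / 2))]

theorem Inv.step {B G0 G1 : ℚ[X]} {m : ℕ} (hB : nrm (K B) ≤ 7 / 20)
    (hB' : 78 / 100 ≤ B.eval (1 / 2)) (h : Inv B m G0 G1) :
    Inv B (m + 1) G1 (nxt G0 G1) := by
  set g0 := G0.eval (1 / 2) with hg0
  set g1 := G1.eval (1 / 2) with hg1
  have hg : 7175 / 10000 ≤ g0 := by linarith [h.eval]
  have hK : nrm (K G0) ≤ 2 / 3 * g0 := by
    have : K G0 = K (G0 - B) + K B := by rw [K_sub]; ring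
    rw [this]
    linarith [nrm_add_le (K (G0 - B)) (K B), h.close.1]
  set ε := g1 / g0 - 1 with hε
  have hC : C (g1 / g0) = C ε + 1 := by rw [hε, C_sub, C_1]; ring
  have e1 : nxt G0 G1 - G1 = C ε * K G0 - K (G1 - G0) := by
    rw [nxt, ← hg0, ← hg1, K_sub, K_C_mul, K_sub, hC]; ring
  have e2 : nxt G0 G1 + K G1 - (B + K B) = (G1 + K G0 - (B + K B)) + C ε * K G0 := by
    rw [nxt, ← hg0, ← hg1, K_sub, K_C_mul, hC]; ring
  have e3 : nrm (C ε * K G0) ≤ 2 / 3 * |g1 - g0| := by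
    refine (nrm_C_mul _ _).trans ?_
    have : |g1 - g0| = |ε| * g0 := by
      rw [← abs_of_pos (a := g0) (by linarith), ← abs_mul, abs_of_pos (a := g0) (by linarith)]
      congr 1
      rw [hε]; field_simp
    rw [this]
    nlinarith [abs_nonneg ε]
  have e4 := K_contr (G1 - G0)
  rw [eval_sub, ← hg0, ← hg1] at e4
  refine ⟨h.d1, ?_, h.c10, h.c11, ?_, ?_, ?_⟩
  · refine (natDegree_sub_le _ _).trans (max_le (h.d1.trans (by omega)) (K_natDegree ?_))
    refine (natDegree_sub_le _ _).trans (max_le h.d1 ?_)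
    exact (natDegree_C_mul_le _ _).trans (h.d0.trans (by omega))
  · rw [nxt, coeff_sub, K_coeff_zero, sub_zero, h.c10]
  · rw [nxt, coeff_sub, K_coeff_one, sub_zero, h.c11]
  · rw [e1, e2]
    linarith [nrm_add_le (G1 + K G0 - (B + K B)) (C ε * K G0),
      nrm_sub_le (C ε * K G0) (K (G1 - G0)), h.pot]

theorem nxt_spec {G0 G1 : ℚ[X]} (h : G0.eval (1 / 2) ≠ 0) :
    (1 - C 2 * X) * nxt G0 G1 =
      (1 - X) ^ 2 * G1 - C (G1.eval (1 / 2) / G0.eval (1 / 2)) * X ^ 2 * G0 := by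
  have h1 := K_spec (G1 - C (G1.eval (1 / 2) / G0.eval (1 / 2)) * G0)
  rw [eval_sub, eval_mul, eval_C, div_mul_cancel₀ _ h, sub_self, C_0, sub_zero] at h1
  have h2 : (C 2 : ℚ[X]) = 2 := rfl
  rw [nxt]
  rw [h2] at h1 ⊢
  linear_combination h1

theorem Inv.init {B G0 G1 : ℚ[X]} {m : ℕ} (d0 : G0.natDegree ≤ m) (d1 : G1.natDegree ≤ m + 1)
    (c00 : G0.coeff 0 = B.coeff 0) (c01 : G0.coeff 1 = B.coeff 1)
    (c10 : G1.coeff 0 = B.coeff 0) (c11 : G1.coeff 1 = B.coeff 1)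
    (h : nrm (G0 - B) + nrm (G1 - B) ≤ 1 / 24) : Inv B m G0 G1 := by
  refine ⟨d0, d1, c00, c01, c10, c11, ?_⟩
  have e1 : G1 + K G0 - (B + K B) = (G1 - B) + K (G0 - B) := by rw [K_sub]; ring
  have e2 : G1 - G0 = (G1 - B) - (G0 - B) := by ring
  rw [e1, e2]
  linarith [nrm_add_le (G1 - B) (K (G0 - B)), nrm_sub_le (G1 - B) (G0 - B), K_contr (G0 - B),
    abs_nonneg ((G0 - B).eval (1 / 2))]

end Pool.Agent.Lib.MP_3b72de_co
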