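import Mathlib
import Pool.Agent.Lib.MP_3b72de_co.Gamma

namespace Pool.Agent.Lib.MP_3b72de_co

open Polynomial Finset Nat

noncomputable def Hm (m : ℕ) (G : ℚ[X]) : ℚ[X] :=
  ∑ j ∈ range (m + 1), C (G.coeff j) * (2 * X) ^ j * ((1 + X) ^ 2) ^ (m - j)

theorem Hm_succ {m : ℕ} {G : ℚ[X]} (h : G.natDegree ≤ m) :
    Hm (m + 1) G = (1 + X) ^ 2 * Hm m G := by
  unfold Hm
  rw [Finset.sum_range_succ, coeff_eq_zero_of_natDegree_lt (p := G) (n := m + 1) (by omega),
    Finset.mul_sum]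
  simp only [map_zero, zero_mul, add_zero]
  refine Finset.sum_congr rfl fun j hj => ?_
  rw [Finset.mem_range] at hj
  rw [show m + 1 - j = (m - j) + 1 by omega]
  ring

theorem Hm_X (m : ℕ) (G : ℚ[X]) : Hm (m + 1) (X * G) = 2 * X * Hm m G := by
  unfold Hm
  rw [Finset.sum_range_succ', Finset.mul_sum]
  simp only [coeff_X_mul, coeff_X_mul_zero, map_zero, zero_mul, add_zero, Nat.add_sub_add_right]
  refine Finset.sum_congr rfl fun j _ => ?_
  ring

theorem Hm_C (m : ℕ) (c : ℚ) : Hm m (C c) = C c * ((1 + X) ^ 2) ^ m := by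
  unfold Hm
  rw [Finset.sum_range_succ']
  simp [coeff_C_succ]

theorem Hm_add (m : ℕ) (F G : ℚ[X]) : Hm m (F + G) = Hm m F + Hm m G := by
  simp only [Hm, coeff_add, map_add, add_mul, Finset.sum_add_distrib]

theorem Hm_sub (m : ℕ) (F G : ℚ[X]) : Hm m (F - G) = Hm m F - Hm m G := by
  simp only [Hm, coeff_sub, map_sub, sub_mul, Finset.sum_sub_distrib]

theorem Hm_C_mul (m : ℕ) (c : ℚ) (G : ℚ[X]) : Hm m (C c * G) = C c * Hm m G := by
  simp only [Hm, coeff_C_mul, map_mul, mul_assoc, Finset.mul_sum]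

theorem Hm_rec {m : ℕ} {G0 G1 G2 : ℚ[X]} {r : ℚ} (d0 : G0.natDegree ≤ m)
    (d1 : G1.natDegree ≤ m + 1) (d2 : G2.natDegree ≤ m + 2)
    (h : (1 - C 2 * X) * G2 = (1 - X) ^ 2 * G1 - C r * X ^ 2 * G0) :
    (1 - X) ^ 2 * Hm (m + 2) G2 =
      (1 + X ^ 2) ^ 2 * Hm (m + 1) G1 - C (4 * r) * X ^ 2 * (1 + X) ^ 2 * Hm m G0 := by
  have h2 : (C 2 : ℚ[X]) = 2 := rfl
  have h4 : (C 4 : ℚ[X]) = 4 := rfl
  have e : G2 - C 2 * (X * G2) =
      G1 - C 2 * (X * G1) + X * (X * G1) - C r * (X * (X * G0)) := by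
    rw [h2] at h ⊢; linear_combination h
  have e' := congrArg (Hm (m + 3)) e
  have dX : ∀ {n : ℕ} {G : ℚ[X]}, G.natDegree ≤ n → (X * G).natDegree ≤ n + 1 := by
    intro n G hG
    refine natDegree_mul_le.trans ?_
    have := natDegree_X_le (R := ℚ)
    omega
  rw [Hm_sub, Hm_sub, Hm_add, Hm_sub, Hm_C_mul, Hm_C_mul, Hm_C_mul, Hm_X, Hm_X, Hm_X, Hm_X,
    Hm_X, Hm_X, Hm_succ d2, Hm_succ (d1.trans (by omega) : G1.natDegree ≤ m + 2), Hm_succ d1,
    Hm_succ d0, h2] at e'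
  rw [C_mul, h4]
  linear_combination e'

theorem Hm_coeff (m : ℕ) (G : ℚ[X]) (k : ℕ) : (Hm m G).coeff k =
    ∑ j ∈ range (m + 1), G.coeff j * 2 ^ j *
      (if j ≤ k then ((2 * (m - j)).choose (k - j) : ℚ) else 0) := by
  rw [Hm, finsetSum_coeff]
  refine Finset.sum_congr rfl fun j _ => ?_
  have : (C (G.coeff j) * (2 * X) ^ j * ((1 + X) ^ 2) ^ (m - j) : ℚ[X]) =
      C (G.coeff j * 2 ^ j) * (X ^ j * (1 + X) ^ (2 * (m - j))) := by
    have h2 : (C 2 : ℚ[X]) = 2 := rfl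
    rw [C_mul, C_pow, h2, ← pow_mul]; ring
  rw [this, coeff_C_mul, coeff_X_pow_mul']
  split_ifs
  · rw [coeff_one_add_X_pow]
  · rfl

theorem Hm_coeff_zero (m : ℕ) (G : ℚ[X]) : (Hm m G).coeff 0 = G.coeff 0 := by
  rw [Hm_coeff, Finset.sum_range_succ']
  simp

theorem Hm_coeff_big (m : ℕ) (G : ℚ[X]) (k : ℕ) (hk : 2 * m < k) : (Hm m G).coeff k = 0 := by
  rw [Hm_coeff]
  refine Finset.sum_eq_zero fun j hj => ?_
  rw [Finset.mem_range] at hj
  rw [Nat.choose_eq_zero_of_lt (by omega)]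
  simp

theorem choose_desc (a b j : ℕ) (h : 2 * j ≤ a + b) :
    (if j ≤ a then (a + b - 2 * j).choose (a - j) else 0) * (a + b).descFactorial (2 * j) =
      (a + b).choose a * (a.descFactorial j * b.descFactorial j) := by
  by_cases ha : j ≤ a
  · by_cases hb : j ≤ b
    · obtain ⟨a', rfl⟩ := Nat.exists_eq_add_of_le ha
      obtain ⟨b', rfl⟩ := Nat.exists_eq_add_of_le hb
      rw [if_pos ha, show j + a' + (j + b') - 2 * j = a' + b' by omega, Nat.add_sub_cancel_left]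
      apply Nat.eq_of_mul_eq_mul_left (Nat.mul_pos (factorial_pos a') (factorial_pos b'))
      have h1 := Nat.add_choose_mul_factorial_mul_factorial b' a'
      have h2 := Nat.add_choose_mul_factorial_mul_factorial (j + b') (j + a')
      have h3 := Nat.factorial_mul_descFactorial h
      have h4 := Nat.factorial_mul_descFactorial ha
      have h5 := Nat.factorial_mul_descFactorial hb
      rw [show j + a' + (j + b') - 2 * j = a' + b' by omega] at h3
      rw [Nat.add_sub_cancel_left] at h4 h5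
      rw [add_comm b' a'] at h1
      rw [add_comm (j + b') (j + a')] at h2
      calc a' ! * b' ! * ((a' + b').choose a' * (j + a' + (j + b')).descFactorial (2 * j))
          = ((a' + b').choose a' * b' ! * a' !) * (j + a' + (j + b')).descFactorial (2 * j) := by
            ring
        _ = (j + a' + (j + b')).choose (j + a') * (j + b')! * (j + a')! := by rw [h1, h3, h2]
        _ = _ := by rw [← h4, ← h5]; ring
    · rw [if_pos ha, Nat.choose_eq_zero_of_lt (by omega),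
        Nat.descFactorial_of_lt (by omega : b < j)]
      simp
  · rw [if_neg ha, Nat.descFactorial_of_lt (by omega : a < j)]
    simp

theorem desc_bound (j : ℕ) : ∀ a b M : ℕ, a + b = M + 2 → 2 * j ≤ M →
    4 ^ j * (a.descFactorial j * b.descFactorial j) * (M + 2 - 2 * j) ^ 3 ≤
      (M + 2) ^ 3 * M.descFactorial (2 * j) := by
  induction j with
  | zero => intro a b M _ _; simp
  | succ j ih =>
    intro a b M hab hM
    rcases a with _ | a
    · simp
    rcases b with _ | b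
    · simp
    obtain ⟨M, rfl⟩ : ∃ M', M = M' + 2 := ⟨M - 2, by omega⟩
    have h := ih a b M (by omega) (by omega)
    rw [show 2 * (j + 1) = 2 * j + 1 + 1 by ring, Nat.succ_descFactorial_succ,
      Nat.succ_descFactorial_succ, Nat.succ_descFactorial_succ, Nat.succ_descFactorial_succ,
      show M + 2 + 2 - (2 * j + 1 + 1) = M + 2 - 2 * j by omega]
    have h1 : 4 * ((a + 1) * (b + 1)) ≤ (M + 2 + 2) ^ 2 := by
      rw [← hab]; nlinarith [sq_nonneg ((a : ℤ) - b)]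
    calc 4 ^ (j + 1) * ((a + 1) * a.descFactorial j * ((b + 1) * b.descFactorial j)) *
          (M + 2 - 2 * j) ^ 3
        = (4 * ((a + 1) * (b + 1))) *
          (4 ^ j * (a.descFactorial j * b.descFactorial j) * (M + 2 - 2 * j) ^ 3) := by ring
      _ ≤ (M + 2 + 2) ^ 2 * ((M + 2) ^ 3 * M.descFactorial (2 * j)) := Nat.mul_le_mul h1 h
      _ = ((M + 4) ^ 2 * (M + 2) * M.descFactorial (2 * j)) * (M + 2) ^ 2 := by ring
      _ ≤ ((M + 4) ^ 2 * (M + 2) * M.descFactorial (2 * j)) * ((M + 4) * (M + 1)) :=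
        Nat.mul_le_mul_left _ (by nlinarith)
      _ = _ := by ring

theorem num_bound (m j : ℕ) (hm : 90 ≤ m) (hj : j ≤ m) :
    j ^ 2 * (m + 1) ^ 3 ≤ 3 * 2 ^ j * (m + 1 - j) ^ 3 := by
  obtain ⟨d, hd⟩ : ∃ d, m + 1 = j + d := ⟨m + 1 - j, by omega⟩
  rw [show m + 1 - j = d by omega, hd]
  by_cases h : 3 * j ≤ d
  · have h1 : ∀ i : ℕ, 8 * (i + 3) ^ 2 ≤ 9 * 2 ^ (i + 3) := by
      intro i
      induction i with
      | zero => norm_num
      | succ i ih =>
        rw [show i + 1 + 3 = i + 3 + 1 by ring, pow_succ 2]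
        have : 2 * (8 * (i + 3) ^ 2) = 8 * (i + 3 + 1) ^ 2 + (8 * i ^ 2 + 32 * i + 16) := by ring
        omega
    have h2 : 8 * j ^ 2 ≤ 9 * 2 ^ j := by
      by_cases h3 : 3 ≤ j
      · obtain ⟨i, rfl⟩ := Nat.exists_eq_add_of_le' h3
        exact h1 i
      · have : j < 3 := by omega
        interval_cases j <;> norm_num
    have h3 : (3 * (j + d)) ^ 3 ≤ (4 * d) ^ 3 := Nat.pow_le_pow_left (by omega) 3
    have h4 := Nat.mul_le_mul h2 h3
    nlinarith [Nat.zero_le (2 ^ j * d ^ 3)]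
  · have h1 : ∀ i : ℕ, (i + 24) ^ 5 ≤ 3 * 2 ^ (i + 23) := by
      intro i
      induction i with
      | zero => norm_num
      | succ i ih =>
        have : (i + 1 + 24) ^ 5 ≤ 2 * (i + 24) ^ 5 := by
          have : 2 * (i + 24) ^ 5 = (i + 1 + 24) ^ 5 +
            (i ^ 5 + 115 * i ^ 4 + 5270 * i ^ 3 + 120230 * i ^ 2 + 1364635 * i + 6159623) := by
            ring
          omega
        rw [show i + 1 + 23 = i + 23 + 1 by ring, pow_succ 2]
        omega
    obtain ⟨i, rfl⟩ : ∃ i, j = i + 23 := ⟨j - 23, by omega⟩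
    have h2 : (i + 23 + d) ^ 3 ≤ ((i + 24) * d) ^ 3 :=
      Nat.pow_le_pow_left (by have : 1 ≤ d := by omega
                              nlinarith) 3
    calc (i + 23) ^ 2 * (i + 23 + d) ^ 3 ≤ (i + 24) ^ 2 * ((i + 24) * d) ^ 3 :=
          Nat.mul_le_mul (Nat.pow_le_pow_left (by omega) 2) h2
      _ = (i + 24) ^ 5 * d ^ 3 := by ring
      _ ≤ _ := Nat.mul_le_mul_right _ (h1 i)

/-- The normalised term. -/
def rr (j a b : ℕ) : ℚ :=
  ((a.descFactorial j * b.descFactorial j : ℕ) : ℚ) / ((a + b).descFactorial (2 * j) : ℕ)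

theorem desc_pos {n k : ℕ} (h : k ≤ n) : (0 : ℚ) < (n.descFactorial k : ℕ) := by
  exact_mod_cast Nat.descFactorial_pos.2 h

theorem rr_nonneg (j a b : ℕ) : 0 ≤ rr j a b := by unfold rr; positivity

theorem rr_le (m j a b : ℕ) (hm : 90 ≤ m) (hab : a + b = 2 * m) (hj : j + 2 ≤ m) :
    2 ^ (j + 2) * rr (j + 2) a b ≤ 3 / 4 := by
  set J := j + 2 with hJ
  have h1 := desc_bound J (a + 2) b (a + b) (by ring) (by omega)
  have h2 := num_bound m J hm hj
  have h3 : a.descFactorial J ≤ (a + 2).descFactorial J := Nat.descFactorial_le _ (by omega)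
  have hp := desc_pos (n := a + b) (k := 2 * J) (by omega)
  rw [hab, show 2 * m + 2 - 2 * J = 2 * (m + 1 - J) by omega,
    show 2 * m + 2 = 2 * (m + 1) by ring] at h1
  set d := m + 1 - J with hd
  have hd0 : 0 < d := by omega
  set D := (2 * m).descFactorial (2 * J) with hD
  set x := a.descFactorial J * b.descFactorial J with hx
  have h4 : 4 ^ J * x * d ^ 3 ≤ (m + 1) ^ 3 * D := by
    have : 4 ^ J * x * (2 * d) ^ 3 ≤ (2 * (m + 1)) ^ 3 * D :=
      le_trans (by gcongr; exact Nat.mul_le_mul_right _ h3) h1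
    nlinarith
  have h5 : 4 * (m + 1) ^ 3 ≤ 3 * 2 ^ J * d ^ 3 :=
    le_trans (Nat.mul_le_mul_right _ (by nlinarith)) h2
  have h6 : 4 * (2 ^ J * x) ≤ 3 * D := by
    apply Nat.le_of_mul_le_mul_left (c := 2 ^ J * d ^ 3) _ (by positivity)
    calc 2 ^ J * d ^ 3 * (4 * (2 ^ J * x)) = 4 * ((2 * 2) ^ J * x * d ^ 3) := by
          rw [mul_pow]; ring
      _ ≤ 4 * ((m + 1) ^ 3 * D) := Nat.mul_le_mul_left _ h4
      _ = (4 * (m + 1) ^ 3) * D := by ring
      _ ≤ (3 * 2 ^ J * d ^ 3) * D := Nat.mul_le_mul_right _ h5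
      _ = _ := by ring
  rw [rr, hab, ← hx, ← hD, ← mul_div_assoc, div_le_div_iff₀ (by rwa [hab] at hp) (by norm_num)]
  have : ((4 * (2 ^ J * x) : ℕ) : ℚ) ≤ ((3 * D : ℕ) : ℚ) := by exact_mod_cast h6
  push_cast at this ⊢
  linarith

theorem desc_cast (a j : ℕ) :
    ((a.descFactorial (j + 1) : ℕ) : ℚ) = ((a : ℚ) - j) * (a.descFactorial j : ℕ) := by
  rw [Nat.descFactorial_succ]
  by_cases h : j ≤ a
  · push_cast [h]; ring
  · rw [Nat.descFactorial_of_lt (by omega : a < j)]; simp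

theorem rr_diff (m j a b : ℕ) (hm : 90 ≤ m) (hab : a + b + 2 = 2 * m) (hj : j + 2 ≤ m) :
    2 ^ (j + 2) * |rr (j + 2) a (b + 2) + rr (j + 2) (a + 2) b - 2 * rr (j + 2) (a + 1) (b + 1)|
      ≤ 54 / (2 * m) ^ 2 := by
  obtain ⟨M, hM⟩ : ∃ M, a + b = M + 2 := ⟨a + b - 2, by omega⟩
  have hm' : 2 * m = M + 4 := by omega
  have h1 := desc_bound j a b M hM (by omega)
  have h2 := num_bound m (j + 2) hm hj
  set d := m + 1 - (j + 2) with hd
  have hd0 : 0 < d := by omega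
  rw [show M + 2 - 2 * j = 2 * d by omega] at h1
  set D := M.descFactorial (2 * j) with hD
  set x := a.descFactorial j * b.descFactorial j with hx
  have hDp : (0 : ℚ) < D := desc_pos (by omega)
  have h4 : 4 ^ j * x * d ^ 3 ≤ (m + 1) ^ 3 * D := by
    have : 4 ^ j * x * (2 * d) ^ 3 ≤ (2 * (m + 1)) ^ 3 * D :=
      h1.trans (Nat.mul_le_mul_right _ (Nat.pow_le_pow_left (by omega) 3))
    nlinarith
  have h6 : (j + 2) ^ 2 * (2 ^ j * x) ≤ 12 * D := by
    apply Nat.le_of_mul_le_mul_left (c := 2 ^ j * d ^ 3) _ (by positivity)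
    calc 2 ^ j * d ^ 3 * ((j + 2) ^ 2 * (2 ^ j * x))
        = (j + 2) ^ 2 * ((2 * 2) ^ j * x * d ^ 3) := by rw [mul_pow]; ring
      _ ≤ (j + 2) ^ 2 * ((m + 1) ^ 3 * D) := Nat.mul_le_mul_left _ h4
      _ = ((j + 2) ^ 2 * (m + 1) ^ 3) * D := by ring
      _ ≤ (3 * 2 ^ (j + 2) * d ^ 3) * D := Nat.mul_le_mul_right _ h2
      _ = _ := by ring
  have h7 : ((j : ℚ) + 2) ^ 2 * (2 ^ j * x) ≤ 12 * D := by exact_mod_cast h6
  have e0 : ∀ n : ℕ, n = M + 4 → ((n.descFactorial (2 * (j + 2)) : ℕ) : ℚ) =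
      (M + 4) * (M + 3) * (M + 2) * (M + 1) * D := by
    rintro n rfl
    rw [show 2 * (j + 2) = 2 * j + 1 + 1 + 1 + 1 by ring, Nat.succ_descFactorial_succ,
      Nat.succ_descFactorial_succ, Nat.succ_descFactorial_succ, Nat.succ_descFactorial_succ]
    push_cast
    ring
  have e1 : ∀ a : ℕ, (((a + 2).descFactorial (j + 2) : ℕ) : ℚ) =
      (a + 2) * (a + 1) * (a.descFactorial j : ℕ) := by
    intro a
    rw [Nat.succ_descFactorial_succ, Nat.succ_descFactorial_succ]; push_cast; ring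
  have e2 : ∀ a : ℕ, (((a + 1).descFactorial (j + 2) : ℕ) : ℚ) =
      (a + 1) * (a - j) * (a.descFactorial j : ℕ) := by
    intro a
    rw [Nat.succ_descFactorial_succ, Nat.cast_mul, desc_cast]; push_cast; ring
  have e3 : ∀ a : ℕ, ((a.descFactorial (j + 2) : ℕ) : ℚ) =
      (a - j - 1) * (a - j) * (a.descFactorial j : ℕ) := by
    intro a
    rw [desc_cast, desc_cast]; push_cast; ring
  set Q : ℚ := (j + 2) * (j + 1) * (a - b) ^ 2 -
    (j + 2) * ((a + 1) * (b - j) + (a - j) * (b + 1)) with hQ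
  have e4 : rr (j + 2) a (b + 2) + rr (j + 2) (a + 2) b - 2 * rr (j + 2) (a + 1) (b + 1) =
      Q * x / ((M + 4) * (M + 3) * (M + 2) * (M + 1) * D) := by
    unfold rr
    rw [e0 _ (by omega), e0 _ (by omega), e0 _ (by omega), Nat.cast_mul, Nat.cast_mul,
      Nat.cast_mul, e1 a, e1 b, e2 a, e2 b, e3 a, e3 b, hx, Nat.cast_mul, hQ]
    field_simp
    ring
  have hmq : (2 * m : ℚ) = M + 4 := by exact_mod_cast hm'
  have hMq : (a : ℚ) + b = M + 2 := by exact_mod_cast hM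
  have hM0 : (176 : ℚ) ≤ M := by exact_mod_cast (by omega : 176 ≤ M)
  have hQx : |Q| * x ≤ (j + 2) ^ 2 * (M + 4) ^ 2 * x := by
    by_cases hx0 : x = 0
    · simp [hx0]
    · have ha : j ≤ a := by
        by_contra h; exact hx0 (by rw [hx, Nat.descFactorial_of_lt (by omega : a < j)]; simp)
      have hb : j ≤ b := by
        by_contra h; exact hx0 (by rw [hx, Nat.descFactorial_of_lt (by omega : b < j)]; simp)
      have ha' : (j : ℚ) ≤ a := by exact_mod_cast ha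
      have hb' : (j : ℚ) ≤ b := by exact_mod_cast hb
      have hj0 : (0 : ℚ) ≤ j := Nat.cast_nonneg _
      refine mul_le_mul_of_nonneg_right ?_ (Nat.cast_nonneg _)
      have s1 : ((a : ℚ) - b) ^ 2 ≤ (M + 4) ^ 2 := by nlinarith
      have s2 : (0 : ℚ) ≤ (a + 1) * (b - j) + (a - j) * (b + 1) := by
        have := mul_nonneg (by linarith : (0 : ℚ) ≤ a + 1) (by linarith : (0 : ℚ) ≤ b - j)
        have := mul_nonneg (by linarith : (0 : ℚ) ≤ a - j) (by linarith : (0 : ℚ) ≤ b + 1)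
        linarith
      have s3 : ((a : ℚ) + 1) * (b - j) + (a - j) * (b + 1) ≤ (M + 4) ^ 2 := by nlinarith
      have s4 : ((j : ℚ) + 2) * (j + 1) * (a - b) ^ 2 ≤ (j + 2) ^ 2 * (M + 4) ^ 2 :=
        mul_le_mul (by nlinarith) s1 (sq_nonneg _) (sq_nonneg _)
      have s5 : ((j : ℚ) + 2) * ((a + 1) * (b - j) + (a - j) * (b + 1)) ≤
          (j + 2) ^ 2 * (M + 4) ^ 2 := mul_le_mul (by nlinarith) s3 s2 (sq_nonneg _)
      have s6 : (0 : ℚ) ≤ (j + 2) * (j + 1) * (a - b) ^ 2 := by positivity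
      have s7 : (0 : ℚ) ≤ (j + 2) * ((a + 1) * (b - j) + (a - j) * (b + 1)) :=
        mul_nonneg (by linarith) s2
      rw [abs_le]
      constructor <;> linarith
  have hP : (0 : ℚ) < (M + 4) * (M + 3) * (M + 2) * (M + 1) * D := by positivity
  rw [e4, abs_div, abs_mul, abs_of_pos hP, abs_of_nonneg (Nat.cast_nonneg x : (0 : ℚ) ≤ x), hmq,
    ← mul_div_assoc, div_le_div_iff₀ hP (by positivity)]
  have h8 : 8 * ((M : ℚ) + 4) ^ 3 ≤ 9 * ((M + 3) * (M + 2) * (M + 1)) := by nlinarith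
  calc (2 : ℚ) ^ (j + 2) * (|Q| * (x : ℚ)) * ((M : ℚ) + 4) ^ 2
      ≤ 2 ^ (j + 2) * (((j : ℚ) + 2) ^ 2 * ((M : ℚ) + 4) ^ 2 * (x : ℚ)) * ((M : ℚ) + 4) ^ 2 := by
        gcongr
    _ = 4 * (((j : ℚ) + 2) ^ 2 * (2 ^ j * (x : ℚ))) * ((M : ℚ) + 4) ^ 4 := by ring
    _ ≤ 4 * (12 * (D : ℚ)) * ((M : ℚ) + 4) ^ 4 := by gcongr
    _ = 6 * (D : ℚ) * ((M : ℚ) + 4) * (8 * ((M : ℚ) + 4) ^ 3) := by ring
    _ ≤ 6 * (D : ℚ) * ((M : ℚ) + 4) * (9 * (((M : ℚ) + 3) * (M + 2) * (M + 1))) := by gcongr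
    _ = _ := by ring

theorem Hm_eq (m : ℕ) (G : ℚ[X]) (a b : ℕ) (hab : a + b = 2 * m) : (Hm m G).coeff a =
    ((2 * m).choose a : ℚ) * ∑ j ∈ range (m + 1), G.coeff j * (2 ^ j * rr j a b) := by
  rw [Hm_coeff, Finset.mul_sum]
  refine Finset.sum_congr rfl fun j hj => ?_
  rw [Finset.mem_range] at hj
  have h := choose_desc a b j (by omega)
  have hp := desc_pos (n := a + b) (k := 2 * j) (by omega)
  have h' : (if j ≤ a then ((2 * (m - j)).choose (a - j) : ℚ) else 0) *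
      ((a + b).descFactorial (2 * j) : ℕ) =
      (2 * m).choose a * ((a.descFactorial j * b.descFactorial j : ℕ) : ℚ) := by
    rw [show 2 * (m - j) = a + b - 2 * j by omega, ← hab]
    exact_mod_cast h
  rw [rr, eq_div_of_mul_eq hp.ne' h']
  ring

theorem log_concave {m : ℕ} {G : ℚ[X]} (hm : 90 ≤ m) (c0 : G.coeff 0 = 1)
    (c1 : G.coeff 1 = -1 / 2) (hG : nrm G ≤ 21 / 10) (k : ℕ) :
    (Hm m G).coeff k * (Hm m G).coeff (k + 2) ≤ (Hm m G).coeff (k + 1) ^ 2 := by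
  by_cases hk : 2 * m < k + 2
  · rw [Hm_coeff_big m G _ hk, mul_zero]; positivity
  obtain ⟨b, hb⟩ : ∃ b, k + b + 2 = 2 * m := ⟨2 * m - k - 2, by omega⟩
  obtain ⟨n, rfl⟩ : ∃ n, m = n + 1 := ⟨m - 1, by omega⟩
  rw [Hm_eq _ G k (b + 2) (by omega), Hm_eq _ G (k + 2) b (by omega),
    Hm_eq _ G (k + 1) (b + 1) (by omega)]
  have hT : ∑ j ∈ range n, |G.coeff (j + 2)| ≤ 3 / 5 := by
    have := shift_le G 2 n
    simp only [Finset.sum_range_succ, Finset.range_zero, Finset.sum_empty, c0, c1, add_comm 2]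
      at this
    norm_num [abs_of_neg] at this
    linarith
  set N : ℚ := 2 * ((n + 1 : ℕ) : ℚ) with hN
  have hNk : (k : ℚ) + b + 2 = N := by rw [hN]; exact_mod_cast hb
  have hN0 : 180 ≤ N := by
    have : (90 : ℚ) ≤ ((n + 1 : ℕ) : ℚ) := by exact_mod_cast hm
    linarith
  have hk0 : (0 : ℚ) ≤ k := Nat.cast_nonneg _
  have hb0 : (0 : ℚ) ≤ b := Nat.cast_nonneg _
  have r1 : ∀ a c : ℕ, (a : ℚ) + c = N → rr 1 a c = a * c / (N * (N - 1)) := by
    intro a c h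
    rw [rr, show 2 * 1 = 1 + 1 by rfl, desc_cast, Nat.descFactorial_one, Nat.descFactorial_one,
      Nat.descFactorial_one]
    push_cast
    rw [h, mul_comm N]
  have split : ∀ a c : ℕ, (a : ℚ) + c = N →
      ∑ j ∈ range (n + 1 + 1), G.coeff j * (2 ^ j * rr j a c) =
      1 - a * c / (N * (N - 1)) +
        ∑ j ∈ range n, G.coeff (j + 2) * (2 ^ (j + 2) * rr (j + 2) a c) := by
    intro a c h
    rw [Finset.sum_range_succ', Finset.sum_range_succ']
    simp only [zero_add, c0, c1, r1 a c h]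
    simp [rr]
    ring
  rw [split k (b + 2) (by push_cast; linarith), split (k + 2) b (by push_cast; linarith),
    split (k + 1) (b + 1) (by push_cast; linarith)]
  set T0 := ∑ j ∈ range n, G.coeff (j + 2) * (2 ^ (j + 2) * rr (j + 2) k (b + 2)) with hT0
  set T2 := ∑ j ∈ range n, G.coeff (j + 2) * (2 ^ (j + 2) * rr (j + 2) (k + 2) b) with hT2
  set T1 := ∑ j ∈ range n, G.coeff (j + 2) * (2 ^ (j + 2) * rr (j + 2) (k + 1) (b + 1)) with hT1
  have b1 : |T1| ≤ 9 / 20 := by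
    refine (Finset.abs_sum_le_sum_abs _ _).trans ?_
    refine le_trans (Finset.sum_le_sum (g := fun j => |G.coeff (j + 2)| * (3 / 4))
      fun j hj => ?_) ?_
    · rw [Finset.mem_range] at hj
      rw [abs_mul, abs_of_nonneg (mul_nonneg (by positivity) (rr_nonneg _ _ _))]
      exact mul_le_mul_of_nonneg_left (rr_le (n + 1) j _ _ hm (by omega) (by omega))
        (abs_nonneg _)
    · rw [← Finset.sum_mul]; linarith
  have b2 : |T0 + T2 - 2 * T1| ≤ 3 / 5 * (54 / N ^ 2) := by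
    rw [hT0, hT2, hT1, Finset.mul_sum, ← Finset.sum_add_distrib, ← Finset.sum_sub_distrib]
    refine (Finset.abs_sum_le_sum_abs _ _).trans ?_
    refine le_trans (Finset.sum_le_sum (g := fun j => |G.coeff (j + 2)| * (54 / N ^ 2))
      fun j hj => ?_) ?_
    · rw [Finset.mem_range] at hj
      have := rr_diff (n + 1) j k b hm hb (by omega)
      rw [show G.coeff (j + 2) * (2 ^ (j + 2) * rr (j + 2) k (b + 2)) +
          G.coeff (j + 2) * (2 ^ (j + 2) * rr (j + 2) (k + 2) b) -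
          2 * (G.coeff (j + 2) * (2 ^ (j + 2) * rr (j + 2) (k + 1) (b + 1))) =
          G.coeff (j + 2) * (2 ^ (j + 2) * (rr (j + 2) k (b + 2) + rr (j + 2) (k + 2) b -
            2 * rr (j + 2) (k + 1) (b + 1))) by ring, abs_mul, abs_mul,
        abs_of_pos (by positivity : (0 : ℚ) < 2 ^ (j + 2))]
      exact mul_le_mul_of_nonneg_left this (abs_nonneg _)
    · rw [← Finset.sum_mul]
      exact mul_le_mul_of_nonneg_right hT (by positivity)
  push_cast
  have hNN : 0 < N * (N - 1) := by nlinarith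
  set F0 := 1 - (k : ℚ) * (b + 2) / (N * (N - 1)) + T0 with hF0
  set F2 := 1 - ((k : ℚ) + 2) * b / (N * (N - 1)) + T2 with hF2
  set F1 := 1 - ((k : ℚ) + 1) * (b + 1) / (N * (N - 1)) + T1 with hF1
  have f1 : 1 / 4 ≤ F1 := by
    have : ((k : ℚ) + 1) * (b + 1) / (N * (N - 1)) ≤ 3 / 10 := by
      rw [div_le_div_iff₀ hNN (by norm_num)]
      nlinarith [sq_nonneg ((k : ℚ) - b)]
    linarith [neg_abs_le T1]
  have f2 : |F0 + F2 - 2 * F1| ≤ 2 * F1 / N := by
    have e : F0 + F2 - 2 * F1 = 2 / (N * (N - 1)) + (T0 + T2 - 2 * T1) := by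
      rw [hF0, hF2, hF1]; field_simp; ring
    have e2 : 2 / (N * (N - 1)) ≤ 3 / N ^ 2 := by
      rw [div_le_div_iff₀ hNN (by positivity)]; nlinarith
    have e3 : 3 / N ^ 2 + 3 / 5 * (54 / N ^ 2) ≤ 2 * (1 / 4) / N := by
      rw [show 3 / N ^ 2 + 3 / 5 * (54 / N ^ 2) = (177 / 5) / N ^ 2 by ring,
        div_le_div_iff₀ (by positivity) (by positivity)]
      nlinarith
    have e4 : 2 * (1 / 4) / N ≤ 2 * F1 / N := by gcongr
    rw [e]
    refine (abs_add_le _ _).trans ?_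
    rw [abs_of_pos (by positivity : 0 < 2 / (N * (N - 1)))]
    linarith
  have f3 : F0 * F2 ≤ (F1 * (1 + 1 / N)) ^ 2 := by
    have h1 : F0 * F2 ≤ ((F0 + F2) / 2) ^ 2 := by nlinarith [sq_nonneg (F0 - F2)]
    refine h1.trans (sq_le_sq' ?_ ?_)
    · have := neg_abs_le (F0 + F2 - 2 * F1)
      have h3 : F1 * (1 + 1 / N) = F1 + 2 * F1 / N / 2 := by ring
      rw [h3]; linarith
    · have := le_abs_self (F0 + F2 - 2 * F1)
      have h3 : F1 * (1 + 1 / N) = F1 + 2 * F1 / N / 2 := by ring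
      rw [h3]; linarith
  have g1 := Nat.choose_succ_right_eq (2 * (n + 1)) k
  have g2 := Nat.choose_succ_right_eq (2 * (n + 1)) (k + 1)
  rw [show 2 * (n + 1) - k = b + 2 by omega] at g1
  rw [show 2 * (n + 1) - (k + 1) = b + 1 by omega] at g2
  set C0 : ℚ := ((2 * (n + 1)).choose k : ℚ) with hC0
  set C1 : ℚ := ((2 * (n + 1)).choose (k + 1) : ℚ) with hC1
  set C2 : ℚ := ((2 * (n + 1)).choose (k + 2) : ℚ) with hC2
  have g1' : C1 * (k + 1) = C0 * (b + 2) := by rw [hC0, hC1]; exact_mod_cast g1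
  have g2' : C2 * (k + 2) = C1 * (b + 1) := by rw [hC2, hC1]; exact_mod_cast g2
  have hC : 0 ≤ C0 * C2 := by positivity
  have g3 : C0 * C2 * (1 + 1 / N) ^ 2 ≤ C1 ^ 2 := by
    have hp : (0 : ℚ) < (k + 2) * (b + 2) := by positivity
    apply le_of_mul_le_mul_right _ hp
    have e : C0 * C2 * (1 + 1 / N) ^ 2 * ((k + 2) * (b + 2)) =
        C1 ^ 2 * ((k + 1) * (b + 1) * (1 + 1 / N) ^ 2) := by
      calc _ = (C0 * (b + 2)) * (C2 * (k + 2)) * (1 + 1 / N) ^ 2 := by ring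
        _ = _ := by rw [← g1', g2']; ring
    rw [e]
    refine mul_le_mul_of_nonneg_left ?_ (sq_nonneg _)
    have h1 : (1 + 1 / N) ^ 2 ≤ 1 + 4 / N := by
      have : 1 / N ≤ 1 := by rw [div_le_one (by linarith)]; linarith
      have h0 : 0 ≤ 1 / N := by positivity
      have : 4 / N = 4 * (1 / N) := by ring
      nlinarith
    have h2 : ((k : ℚ) + 1) * (b + 1) * (4 / N) ≤ N := by
      rw [← mul_div_assoc, div_le_iff₀ (by linarith)]
      nlinarith [sq_nonneg ((k : ℚ) - b)]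
    nlinarith [mul_le_mul_of_nonneg_left h1 (by positivity : (0 : ℚ) ≤ (k + 1) * (b + 1))]
  calc C0 * F0 * (C2 * F2) = C0 * C2 * (F0 * F2) := by ring
    _ ≤ C0 * C2 * (F1 * (1 + 1 / N)) ^ 2 := mul_le_mul_of_nonneg_left f3 hC
    _ = C0 * C2 * (1 + 1 / N) ^ 2 * F1 ^ 2 := by ring
    _ ≤ C1 ^ 2 * F1 ^ 2 := mul_le_mul_of_nonneg_right g3 (sq_nonneg _)
    _ = _ := by ring

end Pool.Agent.Lib.MP_3b72de_co
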