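import Mathlib

namespace Pool.Agent.Lib.MP_3b72de_co

open Polynomial Finset

noncomputable abbrev x : PowerSeries ℚ := PowerSeries.X

noncomputable def im : PowerSeries ℚ := (1 - x)⁻¹

noncomputable def ip : PowerSeries ℚ := (1 + x)⁻¹

theorem im_spec : (1 - x) * im = 1 := PowerSeries.mul_inv_cancel _ (by simp)

theorem ip_spec : (1 + x) * ip = 1 := PowerSeries.mul_inv_cancel _ (by simp)

noncomputable def ψ : PowerSeries ℚ := -(1 + x) * im

noncomputable def φ : PowerSeries ℚ := (1 - x) * ip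

/-- The identity that makes the coefficient vector of `V` a kernel vector. -/
def PP (m : ℕ) (V : ℚ[X]) : Prop :=
  (1 + x ^ 2) * (1 - x) * ((1 - x) ^ (2 * m) * aeval x V) =
    (1 - 2 * x - x ^ 2) * ((1 - x) ^ (2 * m) * aeval ψ V) +
      x * (1 + 2 * x - x ^ 2) * (x ^ (2 * m) * (1 + x) ^ (2 * m) * aeval φ V)

theorem PP_zero : PP 0 1 := by
  simp only [PP, map_one]; ring

theorem PP_one : PP 1 (1 + X + X ^ 2) := by
  simp only [PP, map_add, map_one, map_pow, aeval_X, ψ, φ]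
  have h1 := im_spec
  have h2 := ip_spec
  have e1 : (1 - x) ^ (2 * 1) * (1 + -(1 + x) * im + (-(1 + x) * im) ^ 2) = 1 + 3 * x ^ 2 := by
    linear_combination (-(1 + x) * (1 - x) + (1 + x) ^ 2 * ((1 - x) * im + 1)) * h1
  have e2 : x ^ (2 * 1) * (1 + x) ^ (2 * 1) * (1 + (1 - x) * ip + ((1 - x) * ip) ^ 2) =
      x ^ 2 * (3 + x ^ 2) := by
    linear_combination x ^ 2 * ((1 + x) * (1 - x) + (1 - x) ^ 2 * ((1 + x) * ip + 1)) * h2
  rw [e1, e2]
  ring

theorem PP_smul {m : ℕ} {V : ℚ[X]} (h : PP m V) (c : ℚ) : PP m (C c * V) := by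
  simp only [PP, map_mul, aeval_C] at h ⊢
  linear_combination (algebraMap ℚ (PowerSeries ℚ) c) * h

theorem PP_step {m : ℕ} {V0 V1 V2 : ℚ[X]} {c α β : ℚ} (hc : c ≠ 0) (h0 : PP m V0)
    (h1 : PP (m + 1) V1)
    (h : C c * (1 - X) ^ 2 * V2 = C α * (1 + X ^ 2) ^ 2 * V1 - C β * X ^ 2 * (1 + X) ^ 2 * V0) :
    PP (m + 2) V2 := by
  have e : ∀ t : PowerSeries ℚ, algebraMap ℚ _ c * (1 - t) ^ 2 * aeval t V2 =
      algebraMap ℚ _ α * (1 + t ^ 2) ^ 2 * aeval t V1 -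
        algebraMap ℚ _ β * t ^ 2 * (1 + t) ^ 2 * aeval t V0 := by
    intro t
    simpa only [map_mul, map_sub, map_pow, map_add, map_one, aeval_C, aeval_X] using
      congrArg (aeval t) h
  have hc' : algebraMap ℚ (PowerSeries ℚ) c ≠ 0 := by simpa using hc
  have h4 : (4 : PowerSeries ℚ) ≠ 0 := by
    intro h
    have := congrArg (PowerSeries.constantCoeff (R := ℚ)) h
    rw [map_ofNat, map_zero] at this
    norm_num at this
  set c' := algebraMap ℚ (PowerSeries ℚ) c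
  set α' := algebraMap ℚ (PowerSeries ℚ) α
  set β' := algebraMap ℚ (PowerSeries ℚ) β
  have a1 : (1 - x) * (1 - ψ) = 2 := by unfold ψ; linear_combination (1 + x) * im_spec
  have a2 : (1 - x) * ψ = -(1 + x) := by unfold ψ; linear_combination (-(1 + x)) * im_spec
  have a3 : (1 - x) ^ 2 * (1 + ψ ^ 2) = 2 * (1 + x ^ 2) := by
    linear_combination ((1 - x) * ψ - (1 + x)) * a2
  have a4 : (1 - x) * (1 + ψ) = -2 * x := by linear_combination a2
  have b2 : (1 + x) * φ = 1 - x := by unfold φ; linear_combination (1 - x) * ip_spec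
  have b1 : (1 + x) * (1 - φ) = 2 * x := by linear_combination -b2
  have b3 : (1 + x) ^ 2 * (1 + φ ^ 2) = 2 * (1 + x ^ 2) := by
    linear_combination ((1 + x) * φ + (1 - x)) * b2
  have b4 : (1 + x) * (1 + φ) = 2 := by linear_combination b2
  have eW : c' * (1 - x) ^ 4 * aeval ψ V2 = α' * (1 + x ^ 2) ^ 2 * (1 - x) ^ 2 * aeval ψ V1 -
      β' * x ^ 2 * (1 - x ^ 2) ^ 2 * aeval ψ V0 := by
    apply mul_left_cancel₀ h4
    calc 4 * (c' * (1 - x) ^ 4 * aeval ψ V2)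
        = (1 - x) ^ 4 * ((1 - x) * (1 - ψ)) ^ 2 * c' * aeval ψ V2 := by rw [a1]; ring
      _ = (1 - x) ^ 6 * (c' * (1 - ψ) ^ 2 * aeval ψ V2) := by ring
      _ = (1 - x) ^ 2 * (α' * ((1 - x) ^ 2 * (1 + ψ ^ 2)) ^ 2 * aeval ψ V1 -
          β' * ((1 - x) * ψ) ^ 2 * ((1 - x) * (1 + ψ)) ^ 2 * aeval ψ V0) := by rw [e]; ring
      _ = _ := by rw [a2, a3, a4]; ring
  have eZ : c' * x ^ 2 * (1 + x) ^ 4 * aeval φ V2 =
      α' * (1 + x ^ 2) ^ 2 * (1 + x) ^ 2 * aeval φ V1 - β' * (1 - x ^ 2) ^ 2 * aeval φ V0 := by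
    apply mul_left_cancel₀ h4
    calc 4 * (c' * x ^ 2 * (1 + x) ^ 4 * aeval φ V2)
        = (1 + x) ^ 4 * ((1 + x) * (1 - φ)) ^ 2 * c' * aeval φ V2 := by rw [b1]; ring
      _ = (1 + x) ^ 6 * (c' * (1 - φ) ^ 2 * aeval φ V2) := by ring
      _ = (1 + x) ^ 2 * (α' * ((1 + x) ^ 2 * (1 + φ ^ 2)) ^ 2 * aeval φ V1 -
          β' * ((1 + x) * φ) ^ 2 * ((1 + x) * (1 + φ)) ^ 2 * aeval φ V0) := by rw [e]; ring
      _ = _ := by rw [b2, b3, b4]; ring
  have eU := e x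
  unfold PP at h0 h1 ⊢
  apply mul_left_cancel₀ hc'
  simp only [mul_add 2, pow_add] at h1 ⊢
  linear_combination α' * (1 + x ^ 2) ^ 2 * h1 - β' * x ^ 2 * (1 - x ^ 2) ^ 2 * h0 +
    (1 + x ^ 2) * (1 - x) * (1 - x) ^ (2 * m) * (1 - x) ^ 2 * eU -
    (1 - 2 * x - x ^ 2) * (1 - x) ^ (2 * m) * eW -
    x * (1 + 2 * x - x ^ 2) * x ^ (2 * m) * (1 + x) ^ (2 * m) * x ^ 2 * eZ

/-- Row generating functions of the skew matrix. -/
noncomputable def row : ℕ → PowerSeries ℚ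
  | 0 => 2 * x * im
  | 1 => -2 + x * (1 + x) * im * (2 * x * im)
  | i + 2 => row (i + 1) + x * (1 + x) * im * (row (i + 1) + row i)

theorem row_closed (i : ℕ) : (1 + 2 * x - x ^ 2) * (1 - x) * row i =
    -2 * (1 - 2 * x - x ^ 2) * (-ψ) ^ i + 2 * (1 + x ^ 2) * (1 - x) * (-x) ^ i := by
  have h := im_spec
  induction i using Nat.twoStepInduction with
  | zero => simp only [row]; linear_combination (2 * x * (1 + 2 * x - x ^ 2)) * h
  | one =>
    simp only [row, ψ]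
    linear_combination (2 * x ^ 2 * (1 + x) * (1 + 2 * x - x ^ 2) * im + 2 * (1 - x ^ 2) ^ 2) * h
  | more i ih0 ih1 =>
    simp only [row]
    have e1 : (-ψ) ^ 2 = -ψ + x * (1 + x) * im * (-ψ + 1) := by
      unfold ψ; linear_combination ((1 + x) ^ 2 * im) * h
    have e2 : (-x) ^ 2 = -x + x * (1 + x) * im * (-x + 1) := by
      linear_combination (-x * (1 + x)) * h
    rw [pow_add (-ψ) i 2, pow_add (-x) i 2, e1, e2]
    rw [pow_succ, pow_succ] at ih1
    linear_combination ih1 + x * (1 + x) * im * (ih1 + ih0)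

theorem kernel {m : ℕ} {V : ℚ[X]} (h : PP m V) (hd : V.natDegree < 2 * m + 1) (k : ℕ)
    (hk : k < 2 * m + 1) :
    ∑ i ∈ range (2 * m + 1), (-1) ^ i * V.coeff i * PowerSeries.coeff k (row i) = 0 := by
  set S := ∑ i ∈ range (2 * m + 1), ((-1) ^ i * V.coeff i) • row i with hS
  have e : (1 + 2 * x - x ^ 2) * (1 - x) * S =
      -2 * (1 - 2 * x - x ^ 2) * aeval ψ V + 2 * (1 + x ^ 2) * (1 - x) * aeval x V := by
    rw [aeval_eq_sum_range' hd, aeval_eq_sum_range' hd, hS, Finset.mul_sum, Finset.mul_sum,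
      Finset.mul_sum, ← Finset.sum_add_distrib]
    refine Finset.sum_congr rfl fun i _ => ?_
    rw [mul_smul_comm, row_closed, neg_pow ψ, neg_pow x, mul_comm ((-1 : ℚ) ^ i), mul_smul,
      mul_smul_comm, mul_smul_comm, ← smul_add]
    congr 1
    rw [Algebra.smul_def, map_pow, map_neg, map_one]
    have : ((-1 : PowerSeries ℚ) ^ i) * (-1) ^ i = 1 := by rw [← mul_pow]; simp
    linear_combination (-2 * (1 - 2 * x - x ^ 2) * ψ ^ i + 2 * (1 + x ^ 2) * (1 - x) * x ^ i) * this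
  have hu : IsUnit ((1 - x) ^ (2 * m) * ((1 + 2 * x - x ^ 2) * (1 - x))) := by
    rw [PowerSeries.isUnit_iff_constantCoeff]; simp
  have hdvd : x ^ (2 * m + 1) ∣ S := by
    rw [← hu.dvd_mul_left]
    refine ⟨2 * (1 + 2 * x - x ^ 2) * ((1 + x) ^ (2 * m) * aeval φ V), ?_⟩
    unfold PP at h
    linear_combination (1 - x) ^ (2 * m) * e + 2 * h
  have := (PowerSeries.X_pow_dvd_iff.1 hdvd) k hk
  rw [hS, map_sum] at this
  simpa only [map_smul, smul_eq_mul] using this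

end Pool.Agent.Lib.MP_3b72de_co
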