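import Mathlib
import Pool.Agent.Lib.MP_3b72de_co.LogConc
import Pool.Agent.Lib.MP_3b72de_co.Series

namespace Pool.Agent.Lib.MP_3b72de_co

open Polynomial Finset

section lists

variable {R : Type} [CommRing R] (f : R →+* ℚ)

noncomputable def tp : List R → ℚ[X]
  | [] => 0
  | c :: l => C (f c) + X * tp l

def ladd : List R → List R → List R
  | [], l => l
  | a :: l, [] => a :: l
  | a :: l, b :: l' => (a + b) :: ladd l l'

def lsmul (c : R) (l : List R) : List R := l.map fun a => c * a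

theorem tp_ladd : ∀ l l' : List R, tp f (ladd l l') = tp f l + tp f l'
  | [], l => by simp [ladd, tp]
  | a :: l, [] => by simp [ladd, tp]
  | a :: l, b :: l' => by simp only [ladd, tp, tp_ladd l l', map_add]; ring

theorem tp_lsmul (c : R) : ∀ l : List R, tp f (lsmul c l) = C (f c) * tp f l
  | [] => by simp [lsmul, tp]
  | a :: l => by
    have := tp_lsmul c l
    simp only [lsmul, List.map_cons, tp, map_mul] at this ⊢
    rw [this]; ring

theorem tp_shift (l : List R) : tp f (0 :: l) = X * tp f l := by simp [tp]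

def lsub (l l' : List R) : List R := ladd l (lsmul (-1) l')

theorem tp_lsub (l l' : List R) : tp f (lsub l l') = tp f l - tp f l' := by
  rw [lsub, tp_ladd, tp_lsmul]; simp [sub_eq_add_neg]

def mulP (l : List R) : List R := ladd l (0 :: l)

def mulM (l : List R) : List R := lsub l (0 :: l)

def mulQ (l : List R) : List R := ladd l (0 :: 0 :: l)

theorem tp_mulP (l : List R) : tp f (mulP l) = (1 + X) * tp f l := by
  rw [mulP, tp_ladd, tp_shift]; ring

theorem tp_mulM (l : List R) : tp f (mulM l) = (1 - X) * tp f l := by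
  rw [mulM, tp_lsub, tp_shift]; ring

theorem tp_mulQ (l : List R) : tp f (mulQ l) = (1 + X ^ 2) * tp f l := by
  rw [mulQ, tp_ladd, tp_shift, tp_shift]; ring

def leq [DecidableEq R] (l l' : List R) : Bool := (lsub l l').all fun a => a = 0

theorem tp_leq [DecidableEq R] {l l' : List R} (h : leq l l' = true) : tp f l = tp f l' := by
  rw [← sub_eq_zero, ← tp_lsub]
  unfold leq at h
  generalize lsub l l' = u at h
  induction u with
  | nil => rfl
  | cons a u ih =>
    simp only [List.all_cons, Bool.and_eq_true, decide_eq_true_eq] at h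
    rw [tp, ih h.2, h.1]; simp

theorem tp_coeff : ∀ (l : List R) (k : ℕ), (tp f l).coeff k = f (l.getD k 0)
  | [], k => by simp [tp]
  | a :: l, 0 => by simp [tp]
  | a :: l, k + 1 => by simp [tp, coeff_C_succ, tp_coeff l k]

theorem tp_natDegree {l : List R} {n : ℕ} (h : l.length ≤ n + 1) : (tp f l).natDegree ≤ n := by
  rw [natDegree_le_iff_coeff_eq_zero]
  intro k hk
  rw [tp_coeff, List.getD_eq_default _ _ (by omega), map_zero]

end lists

theorem nrm_tp : ∀ l : List ℚ, nrm (tp (RingHom.id ℚ) l) ≤ (l.map abs).sum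
  | [] => by simp [tp, nrm]
  | a :: l => by
    have ih := nrm_tp l
    rw [List.map_cons, List.sum_cons, nrm, Finset.sum_range_succ', add_comm]
    refine add_le_add (by simp [tp]) (le_trans ?_ ih)
    refine le_trans (le_of_eq ?_) (sum_le_nrm _ (tp (RingHom.id ℚ) (a :: l)).natDegree)
    refine Finset.sum_congr rfl fun j _ => ?_
    simp [tp, coeff_C_succ]

def LC (V : ℚ[X]) : Prop := ∀ k, V.coeff k * V.coeff (k + 2) ≤ V.coeff (k + 1) ^ 2

def lcCheck : List ℤ → Bool
  | a :: b :: c :: l => decide (a * c ≤ b * b) && lcCheck (b :: c :: l)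
  | _ => true

theorem lcCheck_sound : ∀ l : List ℤ, lcCheck l = true → ∀ k,
    l.getD k 0 * l.getD (k + 2) 0 ≤ l.getD (k + 1) 0 ^ 2
  | [], _, k => by simp
  | [a], _, k => by simp
  | [a, b], _, k => by simp; positivity
  | a :: b :: c :: l, h, 0 => by
    simp only [lcCheck, Bool.and_eq_true, decide_eq_true_eq] at h
    simpa [sq] using h.1
  | a :: b :: c :: l, h, k + 1 => by
    simp only [lcCheck, Bool.and_eq_true, decide_eq_true_eq] at h
    simpa using lcCheck_sound (b :: c :: l) h.2 k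

def psum : ℤ → List ℤ → List ℤ
  | _, [] => []
  | s, a :: l => (s + a) :: psum (s + a) l

def rhs (l0 l1 : List ℤ) : List ℤ :=
  lsub (lsmul (l1.headD 0) (mulQ (mulQ l1))) (lsmul l1.sum (0 :: 0 :: mulP (mulP l0)))

def nextL (l0 l1 : List ℤ) : List ℤ :=
  ((psum 0 (psum 0 (rhs l0 l1))).take (l1.length + 2)).map
    fun a => l1.sum * a / (l1.headD 0 * l1.headD 0)

def hl : List ℤ → List ℤ × List ℤ
  | [] => ([], [1])
  | c :: g => let p := hl g; (ladd (lsmul c p.2) (0 :: p.1), mulP (mulP p.2))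

def sc : ℚ → List ℤ → List ℚ
  | _, [] => []
  | t, c :: g => (t * c) :: sc (t / 2) g

theorem hl_snd : ∀ g : List ℤ, tp (Int.castRingHom ℚ) (hl g).2 = ((1 + X) ^ 2) ^ g.length
  | [] => by simp [hl, tp]
  | c :: g => by simp only [hl, tp_mulP, hl_snd g, List.length_cons]; ring

theorem hl_fst : ∀ (g : List ℤ) (t : ℚ) (n : ℕ), g.length = n + 1 →
    Hm n (tp (RingHom.id ℚ) (sc t g)) = C t * tp (Int.castRingHom ℚ) (hl g).1
  | [], _, _, h => by simp at h
  | [c], t, n, h => by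
    obtain rfl : n = 0 := by simpa using h.symm
    simp [sc, tp, hl, Hm, ladd, lsmul]
  | c :: c' :: g, t, n, h => by
    obtain ⟨n, rfl⟩ : ∃ k, n = k + 1 := ⟨g.length, by simpa using h.symm⟩
    have ih := hl_fst (c' :: g) (t / 2) n (by simpa using h)
    have h2 : C (t / 2) * 2 = (C t : ℚ[X]) := by
      rw [show (2 : ℚ[X]) = C 2 from rfl, ← C_mul]; simp
    have hn : (c' :: g).length = n + 1 := by simpa using h
    have e : (hl (c :: c' :: g)).1 = ladd (lsmul c (hl (c' :: g)).2) (0 :: (hl (c' :: g)).1) := rfl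
    rw [sc, tp, Hm_add, Hm_C, Hm_X, ih, e, tp_ladd, tp_lsmul, tp_shift, hl_snd, hn]
    simp only [RingHom.id_apply, map_mul, eq_intCast, map_intCast]
    linear_combination (X * tp (Int.castRingHom ℚ) (hl (c' :: g)).1) * h2

theorem sc_length : ∀ (g : List ℤ) (t : ℚ), (sc t g).length = g.length
  | [], _ => rfl
  | c :: g, t => by simp [sc, sc_length g]

def pows : ℕ → List (List ℤ)
  | 0 => [[1]]
  | n + 1 => let p := pows n; mulP (mulP (p.headD [])) :: p

def gam : List (List ℤ) → List ℤ → List ℤ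
  | [], _ => []
  | w :: ws, l => l.headD 0 :: gam ws (lsub l (lsmul (l.headD 0) w)).tail

def bl : List ℚ := [1, -1 / 2, 1933 / 10000, -850 / 10000, 328 / 10000, -149 / 10000, 54 / 10000,
  -28 / 10000, 8 / 10000, -6 / 10000]

def kbl : List ℚ := [0, 0, -539267 / 2560000, 100733 / 1280000, -22979 / 640000, 4221 / 320000,
  -1027 / 160000, 33 / 16000, -51 / 40000, 1 / 4000, -3 / 10000]

def finalOne (m : ℕ) (l : List ℤ) (η : ℚ) : Bool :=
  let g := gam (pows m) l
  let a := sc (1 / (l.headD 0 : ℚ)) g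
  decide (g.length = m + 1) && leq (hl g).1 l && decide (a.getD 0 0 = 1) &&
    decide (a.getD 1 0 = -1 / 2) && decide (((lsub a bl).map abs).sum ≤ η)

theorem finalOne_sound {m : ℕ} {l : List ℤ} {η : ℚ} (h : finalOne m l η = true)
    (hP : PP m (tp (Int.castRingHom ℚ) l)) : ∃ G : ℚ[X], G.natDegree ≤ m ∧ G.coeff 0 = 1 ∧ G.coeff 1 = -1 / 2 ∧
      nrm (G - tp (RingHom.id ℚ) bl) ≤ η ∧ PP m (Hm m G) := by
  simp only [finalOne, Bool.and_eq_true, decide_eq_true_eq] at h
  obtain ⟨⟨⟨⟨h1, h2⟩, h3⟩, h4⟩, h5⟩ := h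
  refine ⟨tp (RingHom.id ℚ) (sc (1 / (l.headD 0 : ℚ)) (gam (pows m) l)), tp_natDegree _ (by rw [sc_length, h1]),
    by rw [tp_coeff]; exact h3, by rw [tp_coeff]; exact h4, ?_, ?_⟩
  · rw [← tp_lsub]; exact (nrm_tp _).trans h5
  · rw [hl_fst _ _ _ h1, tp_leq _ h2]; exact PP_smul hP _

def run : ℕ → ℕ → List ℤ → List ℤ → Bool
  | 0, m, l0, l1 => finalOne m l0 (1 / 48) && finalOne (m + 1) l1 (1 / 48)
  | n + 1, m, l0, l1 =>
    let l2 := nextL l0 l1
    decide (l0.length ≤ 2 * m + 1) && decide (l0.getD 0 0 ≠ 0) && lcCheck l0 &&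
      decide (l1.headD 0 ≠ 0) &&
      leq (lsmul (l1.headD 0 * l1.headD 0) (mulM (mulM l2))) (lsmul l1.sum (rhs l0 l1)) &&
      run n (m + 1) l1 l2

def Good (m : ℕ) : Prop :=
  ∃ V : ℚ[X], PP m V ∧ V.natDegree ≤ 2 * m ∧ V.coeff 0 ≠ 0 ∧ LC V

theorem run_sound : ∀ (n m : ℕ) (l0 l1 : List ℤ), run n m l0 l1 = true → PP m (tp (Int.castRingHom ℚ) l0) →
    PP (m + 1) (tp (Int.castRingHom ℚ) l1) → (∀ i < n, Good (m + i)) ∧
      ∃ G0 G1, Inv (tp (RingHom.id ℚ) bl) (m + n) G0 G1 ∧ PP (m + n) (Hm (m + n) G0) ∧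
        PP (m + n + 1) (Hm (m + n + 1) G1)
  | 0, m, l0, l1, h, h0, h1 => by
    simp only [run, Bool.and_eq_true] at h
    obtain ⟨G0, a1, a2, a3, a4, a5⟩ := finalOne_sound h.1 h0
    obtain ⟨G1, b1, b2, b3, b4, b5⟩ := finalOne_sound h.2 h1
    have e0 : (tp (RingHom.id ℚ) bl).coeff 0 = 1 := by rw [tp_coeff]; rfl
    have e1 : (tp (RingHom.id ℚ) bl).coeff 1 = -1 / 2 := by rw [tp_coeff]; rfl
    exact ⟨by simp, G0, G1, Inv.init a1 b1 (a2.trans e0.symm) (a3.trans e1.symm)
      (b2.trans e0.symm) (b3.trans e1.symm) (by linarith), a5, b5⟩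
  | n + 1, m, l0, l1, h, h0, h1 => by
    simp only [run, Bool.and_eq_true, decide_eq_true_eq] at h
    obtain ⟨⟨⟨⟨⟨a1, a2⟩, a3⟩, a4⟩, a5⟩, a6⟩ := h
    have h2 : PP (m + 2) (tp (Int.castRingHom ℚ) (nextL l0 l1)) := by
      refine PP_step (c := (l1.headD 0 : ℚ) * l1.headD 0) (α := (l1.sum : ℚ) * l1.headD 0)
        (β := (l1.sum : ℚ) * l1.sum) (by simpa using a4) h0 h1 ?_
      have := tp_leq (Int.castRingHom ℚ) a5
      simp only [rhs, tp_lsmul, tp_mulM, tp_lsub, tp_mulQ, tp_shift, tp_mulP, map_mul,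
        eq_intCast] at this
      simp only [map_mul]
      linear_combination this
    obtain ⟨b1, b2⟩ := run_sound n (m + 1) l1 _ a6 h1 h2
    rw [show m + 1 + n = m + (n + 1) by ring] at b2
    refine ⟨fun i hi => ?_, b2⟩
    rcases i with _ | i
    · refine ⟨tp (Int.castRingHom ℚ) l0, h0, tp_natDegree _ a1, by rw [tp_coeff]; simpa using a2, fun k => ?_⟩
      simp only [tp_coeff, eq_intCast]
      exact_mod_cast lcCheck_sound l0 a3 k
    · rw [show m + (i + 1) = m + 1 + i by ring]; exact b1 i (by omega)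

theorem run_true : run 90 0 [1] [1, 1, 1] = true := by decide +kernel

def hev (t : ℚ) : List ℚ → ℚ
  | [] => 0
  | c :: l => c + t * hev t l

theorem eval_tq (t : ℚ) : ∀ l : List ℚ, (tp (RingHom.id ℚ) l).eval t = hev t l
  | [] => by simp [tp, hev]
  | c :: l => by simp [tp, hev, eval_tq t l]

theorem K_bl : K (tp (RingHom.id ℚ) bl) = tp (RingHom.id ℚ) kbl := by
  apply K_unique
  have h : leq (lsub (0 :: lsmul 2 kbl) kbl) (0 :: 0 :: lsub bl [hev (1 / 2) bl]) = true := by
    decide +kernel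
  have := tp_leq (RingHom.id ℚ) h
  simp only [tp_lsub, tp_shift, tp_lsmul, RingHom.id_apply] at this
  rw [eval_tq]
  simp only [tp, RingHom.id_apply, mul_zero, add_zero] at this ⊢
  linear_combination this

theorem good (m : ℕ) : Good m := by
  have h0 : PP 0 (tp (Int.castRingHom ℚ) [1]) := by simpa [tp] using PP_zero
  have h1 : PP (0 + 1) (tp (Int.castRingHom ℚ) [1, 1, 1]) := by
    have : tp (Int.castRingHom ℚ) [1, 1, 1] = 1 + X + X ^ 2 := by simp [tp]; ring
    rw [this]; exact PP_one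
  obtain ⟨a, b⟩ := run_sound 90 0 _ _ run_true h0 h1
  by_cases hm : m < 90
  · simpa using a m hm
  have hK : nrm (K (tp (RingHom.id ℚ) bl)) ≤ 7 / 20 := by
    rw [K_bl]; exact (nrm_tp _).trans (by decide +kernel)
  have hE : 78 / 100 ≤ (tp (RingHom.id ℚ) bl).eval (1 / 2) := by rw [eval_tq]; decide +kernel
  have hN : nrm (tp (RingHom.id ℚ) bl) ≤ 37 / 20 := (nrm_tp _).trans (by decide +kernel)
  have key : ∀ n, ∃ G0 G1, Inv (tp (RingHom.id ℚ) bl) (90 + n) G0 G1 ∧ PP (90 + n) (Hm (90 + n) G0) ∧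
      PP (90 + n + 1) (Hm (90 + n + 1) G1) := by
    intro n
    induction n with
    | zero => simpa using b
    | succ n ih =>
      obtain ⟨G0, G1, i, p0, p1⟩ := ih
      have i' := i.step hK hE
      refine ⟨G1, nxt G0 G1, i', p1, ?_⟩
      have hg : G0.eval (1 / 2) ≠ 0 := by linarith [i.eval]
      have := Hm_rec i.d0 i.d1 i'.d1 (nxt_spec hg)
      refine PP_step (c := 1) (α := 1) (β := 4 * (G1.eval (1 / 2) / G0.eval (1 / 2)))
        one_ne_zero p0 p1 ?_
      rw [C_1, one_mul, one_mul]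
      exact this
  obtain ⟨n, rfl⟩ := Nat.exists_eq_add_of_le (not_lt.1 hm)
  obtain ⟨G0, G1, i, p0, -⟩ := key n
  have c0 : G0.coeff 0 = 1 := by rw [i.c00, tp_coeff]; rfl
  have c1 : G0.coeff 1 = -1 / 2 := by rw [i.c01, tp_coeff]; rfl
  refine ⟨Hm (90 + n) G0, p0, ?_, by rw [Hm_coeff_zero, c0]; exact one_ne_zero, ?_⟩
  · rw [natDegree_le_iff_coeff_eq_zero]
    exact fun k hk => Hm_coeff_big _ _ _ hk
  · refine log_concave (by omega) c0 c1 ?_
    have := nrm_add_le (G0 - tp (RingHom.id ℚ) bl) (tp (RingHom.id ℚ) bl)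
    rw [sub_add_cancel] at this
    linarith [i.close.2]

end Pool.Agent.Lib.MP_3b72de_co
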