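import Mathlib

namespace Pool.Agent.Lib.MP_3b72de_co

/-- The pair `s = (i, j)` names the unit square `[i, i+1] × [j, j+1]`. `AD m` is the set of unit
squares lying in the region `|x| + |y| ≤ m + 1`. -/
def AD (m : ℕ) : Set (ℤ × ℤ) :=
  {s | ∀ x ∈ Set.Icc (s.1 : ℝ) (s.1 + 1), ∀ y ∈ Set.Icc (s.2 : ℝ) (s.2 + 1), |x| + |y| ≤ m + 1}

/-- Two unit squares sharing an edge. -/
def IsDomino (d : Set (ℤ × ℤ)) : Prop :=
  ∃ i j : ℤ, d = {(i, j), (i + 1, j)} ∨ d = {(i, j), (i, j + 1)}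

/-- `T` is a set of dominoes inside `R` covering each square of `R` exactly once. -/
def IsTiling (R : Set (ℤ × ℤ)) (T : Set (Set (ℤ × ℤ))) : Prop :=
  (∀ d ∈ T, IsDomino d ∧ d ⊆ R) ∧ ∀ s ∈ R, ∃! d, d ∈ T ∧ s ∈ d

/-- Reflection of a unit square in the vertical axis `x = 0`. -/
def mirror (s : ℤ × ℤ) : ℤ × ℤ := (-1 - s.1, s.2)

/-- Checkerboard colouring in which the north-east boundary squares `(i, j)`, `i + j = m - 1`,
of `AD m` are black. -/
def Black (m : ℕ) (s : ℤ × ℤ) : Prop := s.1 + s.2 ≡ m - 1 [ZMOD 2]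

/-- The `2 × 2` block whose bottom-left square is `s`. -/
def block (s : ℤ × ℤ) : Set (ℤ × ℤ) :=
  {s, (s.1 + 1, s.2), (s.1, s.2 + 1), (s.1 + 1, s.2 + 1)}

/-- The south-west boundary square of `AD m` with label `k`, counted from bottom to top. -/
def sw (m k : ℕ) : ℤ × ℤ := (-k, k - m - 1)

/-- Off-diagonally symmetric tilings of `AD m` without the square `sw m k` and its mirror image:
invariant under the reflection, and each cell on the axis (a block of `AD m` with black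
bottom-left square `(-1, j)`) contains exactly one whole domino. -/
def O (m k : ℕ) : Set (Set (Set (ℤ × ℤ))) :=
  {T | IsTiling (AD m \ {sw m k, mirror (sw m k)}) T ∧ (fun d => mirror '' d) '' T = T ∧
    ∀ j : ℤ, Black m (-1, j) → block (-1, j) ⊆ AD m → ∃! d, d ∈ T ∧ d ⊆ block (-1, j)}

end Pool.Agent.Lib.MP_3b72de_co
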