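import Mathlib
import Pool.Agent.Lib.MP_3b72de_co.Chain

namespace Pool.Agent.Lib.MP_3b72de_co

open Finset

/-- Creation plus annihilation operator on functions of occupation words. -/
def NN : (ℕ → ℚ) → (ℕ → ℚ) → (List Bool → ℚ) → List Bool → ℚ
  | _, _, _, [] => 0
  | ξ, v, f, b :: w => (if b then v 0 else ξ 0) * f ((!b) :: w) +
      (if b then -1 else 1) * NN (fun k => ξ (k + 1)) (fun k => v (k + 1)) (fun u => f (b :: u)) w

theorem NN_congr : ∀ (w : List Bool) {ξ ξ' v v' : ℕ → ℚ} {f f' : List Bool → ℚ},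
    (∀ k < w.length, ξ k = ξ' k) → (∀ k < w.length, v k = v' k) →
    (∀ u, u.length = w.length → f u = f' u) → NN ξ v f w = NN ξ' v' f' w
  | [], _, _, _, _, _, _, _, _, _ => rfl
  | b :: w, ξ, ξ', v, v', f, f', h1, h2, h3 => by
    simp only [NN]
    rw [h1 0 (by simp), h2 0 (by simp), h3 _ (by simp),
      NN_congr w (ξ' := fun k => ξ' (k + 1)) (v' := fun k => v' (k + 1))
        (f' := fun u => f' (b :: u)) (fun k hk => h1 _ (by simpa using hk))
        (fun k hk => h2 _ (by simpa using hk)) (fun u hu => h3 _ (by simpa using hu))]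

theorem NN_lin (a c : ℚ) : ∀ (w : List Bool) (ξ ξ' v v' : ℕ → ℚ) (f : List Bool → ℚ),
    NN (fun k => a * ξ k + c * ξ' k) (fun k => a * v k + c * v' k) f w =
      a * NN ξ v f w + c * NN ξ' v' f w
  | [], _, _, _, _, _ => by simp [NN]
  | b :: w, ξ, ξ', v, v', f => by
    simp only [NN]
    rw [NN_lin a c w (fun k => ξ (k + 1)) (fun k => ξ' (k + 1)) (fun k => v (k + 1))
      (fun k => v' (k + 1))]
    cases b <;> simp <;> ring

theorem NN_linf (a c : ℚ) : ∀ (w : List Bool) (ξ v : ℕ → ℚ) (f g : List Bool → ℚ),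
    NN ξ v (fun u => a * f u + c * g u) w = a * NN ξ v f w + c * NN ξ v g w
  | [], _, _, _, _ => by simp [NN]
  | b :: w, ξ, v, f, g => by
    simp only [NN]
    rw [NN_linf a c w _ _ (fun u => f (b :: u)) (fun u => g (b :: u))]
    ring

theorem NN_zero (w : List Bool) (f : List Bool → ℚ) : NN (fun _ => 0) (fun _ => 0) f w = 0 := by
  simpa using NN_lin 0 0 w (fun _ => 0) (fun _ => 0) (fun _ => 0) (fun _ => 0) f

theorem NN_zerof (w : List Bool) (ξ v : ℕ → ℚ) : NN ξ v (fun _ => 0) w = 0 := by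
  simpa using NN_linf 0 0 w ξ v (fun _ => 0) (fun _ => 0)

theorem NN_neg (w : List Bool) (ξ v : ℕ → ℚ) (f : List Bool → ℚ) :
    NN (fun k => -ξ k) (fun k => -v k) f w = -NN ξ v f w := by
  simpa using NN_lin (-1) 0 w ξ ξ v v f

def Ann (n : ℕ) (f : List Bool → ℚ) (ξ v : ℕ → ℚ) : Prop :=
  ∀ w : List Bool, w.length = n → NN ξ v f w = 0

theorem Ann.congr {n : ℕ} {f : List Bool → ℚ} {ξ ξ' v v' : ℕ → ℚ} (h : Ann n f ξ v)
    (h1 : ∀ k < n, ξ' k = ξ k) (h2 : ∀ k < n, v' k = v k) : Ann n f ξ' v' := by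
  intro w hw
  rw [NN_congr w (by rw [hw]; exact h1) (by rw [hw]; exact h2) fun _ _ => rfl]
  exact h w hw

theorem Ann.lin {n : ℕ} {f : List Bool → ℚ} {ξ ξ' v v' : ℕ → ℚ} (h : Ann n f ξ v)
    (h' : Ann n f ξ' v') (a c : ℚ) :
    Ann n f (fun k => a * ξ k + c * ξ' k) (fun k => a * v k + c * v' k) := by
  intro w hw
  rw [NN_lin, h w hw, h' w hw]; simp

theorem Ann.zero (n : ℕ) (f : List Bool → ℚ) : Ann n f (fun _ => 0) (fun _ => 0) :=
  fun w _ => NN_zero w f

theorem Ann.sum {n : ℕ} {f : List Bool → ℚ} {ξ v : ℕ → ℕ → ℚ} (c : ℕ → ℚ) (m : ℕ)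
    (h : ∀ i < m, Ann n f (ξ i) (v i)) :
    Ann n f (fun k => ∑ i ∈ range m, c i * ξ i k) (fun k => ∑ i ∈ range m, c i * v i k) := by
  induction m with
  | zero => simpa using Ann.zero n f
  | succ m ih =>
    simpa [sum_range_succ] using
      (ih fun i hi => h i (by omega)).lin (h m (by omega)) 1 (c m)

/-- Particle-hole exchange. -/
def flip (f : List Bool → ℚ) (w : List Bool) : ℚ := f (w.map not)

theorem NN_flip : ∀ (w : List Bool) (ξ v : ℕ → ℚ) (f : List Bool → ℚ),
    NN (fun k => (-1) ^ k * v k) (fun k => (-1) ^ k * ξ k) (flip f) w = NN ξ v f (w.map not)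
  | [], _, _, _ => rfl
  | b :: w, ξ, v, f => by
    have ih := NN_flip w (fun k => ξ (k + 1)) (fun k => v (k + 1)) (fun u => f ((!b) :: u))
    simp only [NN, List.map_cons]
    rw [← ih, ← neg_neg (NN (fun k => (-1) ^ k * v (k + 1)) _ _ _), ← NN_neg]
    have e : (fun u => flip f (b :: u)) = flip fun u => f ((!b) :: u) := rfl
    simp only [e, pow_succ, mul_neg, mul_one, neg_mul]
    cases b <;> simp [flip]

theorem Ann.flip {n : ℕ} {f : List Bool → ℚ} {ξ v : ℕ → ℚ} (h : Ann n f ξ v) :
    Ann n (flip f) (fun k => (-1) ^ k * v k) (fun k => (-1) ^ k * ξ k) := by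
  intro w hw
  rw [NN_flip]; exact h _ (by simpa using hw)

/-- Extension by an empty last site. -/
def ext (g : List Bool → ℚ) (w : List Bool) : ℚ :=
  if w.getLast? = some false then g w.dropLast else 0

theorem ext_concat (g : List Bool → ℚ) (w : List Bool) (b : Bool) :
    ext g (w ++ [b]) = if b then 0 else g w := by
  cases b <;> simp [ext]

theorem NN_ext (b : Bool) : ∀ (w : List Bool) (ξ v : ℕ → ℚ) (g : List Bool → ℚ),
    v w.length = 0 → NN ξ v (ext g) (w ++ [b]) = if b then 0 else NN ξ v g w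
  | [], ξ, v, g, h => by
    cases b <;> simp_all [NN, ext]
  | a :: w, ξ, v, g, h => by
    have ih := NN_ext b w (fun k => ξ (k + 1)) (fun k => v (k + 1)) (fun u => g (a :: u)) h
    rw [List.cons_append, NN, ← List.cons_append, ext_concat,
      NN_congr (w ++ [b]) (f' := ext fun u => g (a :: u)) (fun _ _ => rfl) (fun _ _ => rfl), ih]
    · cases b <;> simp [NN]
    · intro u hu
      rcases u.eq_nil_or_concat with rfl | ⟨u, c, rfl⟩
      · simp at hu
      · rw [List.concat_eq_append, ← List.cons_append, ext_concat, ext_concat]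

theorem Ann.ext {n : ℕ} {g : List Bool → ℚ} {ξ v : ℕ → ℚ} (h : Ann n g ξ v) (hv : v n = 0) :
    Ann (n + 1) (ext g) ξ v := by
  intro w hw
  rcases w.eq_nil_or_concat with rfl | ⟨u, c, rfl⟩
  · simp at hw
  · have hu : u.length = n := by simpa using hw
    rw [List.concat_eq_append, NN_ext _ _ _ _ _ (by rw [hu, hv]), h u hu]; simp

/-- Toggle of the first site. -/
def tog (f : List Bool → ℚ) : List Bool → ℚ
  | [] => f []
  | b :: w => f ((!b) :: w)

theorem Ann.tog {n : ℕ} {f : List Bool → ℚ} {ξ v ξ' v' : ℕ → ℚ} (h : Ann n f ξ v)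
    (h1 : ξ' 0 = -v 0) (h2 : v' 0 = -ξ 0) (h3 : ∀ k, ξ' (k + 1) = ξ (k + 1))
    (h4 : ∀ k, v' (k + 1) = v (k + 1)) : Ann n (tog f) ξ' v' := by
  rintro (_ | ⟨b, w⟩) hw
  · rfl
  · have := h ((!b) :: w) (by simpa using hw)
    simp only [NN, h1, h2, h3, h4, MP_3b72de_co.tog] at this ⊢
    cases b <;> simp at this ⊢ <;> linarith

/-- Zigzag transfer with a carry. -/
def zg : (List Bool → ℚ) → Bool → List Bool → ℚ
  | f, u, [] => f [u]
  | f, u, b :: w => zg (fun l => f (u :: l)) b w +
      if b && !u then zg (fun l => f (true :: l)) false w else 0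

def zig (f : List Bool → ℚ) : List Bool → ℚ
  | [] => f []
  | u :: w => zg f u w

theorem zg_lin (a c : ℚ) : ∀ (w : List Bool) (u : Bool) (f g : List Bool → ℚ),
    zg (fun l => a * f l + c * g l) u w = a * zg f u w + c * zg g u w
  | [], _, _, _ => rfl
  | b :: w, u, f, g => by
    simp only [zg]
    rw [zg_lin a c w b (fun l => f (u :: l)) (fun l => g (u :: l)),
      zg_lin a c w false (fun l => f (true :: l)) (fun l => g (true :: l))]
    split_ifs <;> ring

theorem zg_congr : ∀ (w : List Bool) (u : Bool) {f g : List Bool → ℚ},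
    (∀ l, l.length = w.length + 1 → f l = g l) → zg f u w = zg g u w
  | [], _, _, _, h => h _ rfl
  | b :: w, u, f, g, h => by
    simp only [zg]
    rw [zg_congr w b (g := fun l => g (u :: l)) fun l hl => h _ (by simpa using hl),
      zg_congr w false (g := fun l => g (true :: l)) fun l hl => h _ (by simpa using hl)]

theorem zg_zero (w : List Bool) (u : Bool) : zg (fun _ => 0) u w = 0 := by
  simpa using zg_lin 0 0 w u (fun _ => 0) (fun _ => 0)

theorem NN_zig : ∀ (w : List Bool) (u : Bool) (ξ v v' : ℕ → ℚ) (f : List Bool → ℚ),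
    ξ (w.length + 1) = 0 → (∀ k, v' (k + 1) = v (k + 1) + v k) →
    NN ξ v' (zig f) (u :: w) =
      zg (NN (fun k => ξ k + ξ (k + 1)) v f) u w + (if u then v' 0 - v 0 else 0) * zg f false w
  | [], u, ξ, v, v', f, h, _ => by
    cases u <;> simp_all [NN, zg, zig]
    ring
  | b :: w, u, ξ, v, v', f, h, h' => by
    have ih := fun (c d : Bool) => NN_zig w c (fun k => ξ (k + 1)) (fun k => v (k + 1))
      (fun k => v' (k + 1)) (fun l => f (d :: l)) h (fun k => h' (k + 1))
    have e : ∀ l : List Bool, l.length = (b :: w).length → zig f (u :: l) =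
        1 * zig (fun l => f (u :: l)) l + (if u then 0 else 1) *
          (match l with
            | [] => 0
            | c :: l => if c then zg (fun l => f (true :: l)) false l else 0) := by
      rintro (_ | ⟨c, l⟩) hl
      · simp at hl
      · cases u <;> cases c <;> simp [zig, zg]
    have e2 : ∀ c, (fun l => zig (fun l => f (true :: l)) (c :: l)) =
      zg (fun l => f (true :: l)) c := fun _ => rfl
    rw [NN, NN_congr (b :: w) (fun _ _ => rfl) (fun _ _ => rfl) e, NN_linf, ih]
    have i2 := ih (!b) true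
    simp only [NN, e2] at i2
    simp only [zg, NN, zg_lin, zig]
    cases u <;> cases b <;> simp [NN_zerof, h', zig] at i2 ⊢ <;> linarith

theorem Ann.zig {n : ℕ} {f : List Bool → ℚ} {ξ v v' : ℕ → ℚ}
    (h : Ann n f (fun k => ξ k + ξ (k + 1)) v) (hξ : ξ n = 0) (h0 : v' 0 = v 0)
    (hv : ∀ k, v' (k + 1) = v (k + 1) + v k) : Ann n (zig f) ξ v' := by
  rintro (_ | ⟨u, w⟩) hw
  · rfl
  · have hw' : w.length + 1 = n := by simpa using hw
    rw [NN_zig w u ξ v v' f (by rw [hw', hξ]) hv, h0,
      zg_congr w u (g := fun _ => 0) fun l hl => h l (by rw [hl, hw']), zg_zero]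
    simp

def Psi : ℕ → List Bool → ℚ
  | 0 => fun _ => 1
  | n + 1 => tog (zig (flip (zig (ext (flip (Psi n))))))

theorem Ann.layer {n : ℕ} {α β ζ η ξ v : ℕ → ℚ} (h : Ann n (Psi n) α β) (hα : α n = 0)
    (h0 : ζ 0 + ζ 1 = α 0) (h1 : ∀ k < n, ζ (k + 1) + ζ (k + 2) = α (k + 1) - α k)
    (hζ : ζ (n + 1) = 0) (hη : ∀ k, η (k + 1) = η k - β k) (a1 : ξ 0 = -η 0) (a2 : v 0 = -ζ 0)
    (a3 : ∀ k, ξ (k + 1) = ζ (k + 1)) (a4 : ∀ k, v (k + 1) = η (k + 1) + η k) :
    Ann (n + 1) (Psi (n + 1)) ξ v := by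
  let ξ1 : ℕ → ℚ := fun k => if k ≤ n then (-1) ^ k * η k else 0
  let v1 : ℕ → ℚ := fun k => (-1) ^ k * (α k - if k = 0 then 0 else α (k - 1))
  let v2 : ℕ → ℚ := fun k => η k + if k = 0 then 0 else η (k - 1)
  have s1 : Ann n (MP_3b72de_co.flip (Psi n)) (fun k => ξ1 k + ξ1 (k + 1))
      (fun k => (-1) ^ k * α k) := by
    refine h.flip.congr (fun k hk => ?_) fun _ _ => rfl
    simp only [ξ1, if_pos hk.le, if_pos (Nat.succ_le_of_lt hk), hη, pow_succ]
    ring
  have s2 := (s1.ext (by simp [hα])).zig (v' := v1) (by simp [ξ1]) (by simp [v1])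
    (fun k => by simp [v1, pow_succ]; ring)
  have sq : ∀ k : ℕ, ((-1 : ℚ) ^ k) * (-1) ^ k = 1 := fun k => by rw [← mul_pow]; simp
  have s3 := (s2.flip.congr (ξ' := fun k => ζ k + ζ (k + 1)) (v' := η) (fun k hk => by
      simp only [v1, ← mul_assoc, sq, one_mul]
      rcases k with _ | k
      · simpa using h0
      · simpa using h1 k (by omega)) (fun k hk => by
      simp only [ξ1, if_pos (Nat.le_of_lt_succ hk), ← mul_assoc, sq, one_mul])).zig (v' := v2) hζ
      (by simp [v2]) (fun k => by simp [v2])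
  exact s3.tog (by simpa [v2] using a1) a2 a3 (fun k => by simpa [v2] using a4 k)

theorem pre_succ (R : PowerSeries ℚ) (k : ℕ) : PowerSeries.coeff (k + 1) (x * im * R) =
    PowerSeries.coeff k (x * im * R) + PowerSeries.coeff k R := by
  have e : x * im * R = x * (x * im * R + R) := by linear_combination (x * R) * im_spec
  rw [e, PowerSeries.coeff_succ_X_mul, map_add, ← e]

theorem pre_zero (R : PowerSeries ℚ) : PowerSeries.coeff 0 (x * im * R) = 0 := by
  simp [mul_assoc]

theorem pre_two (R : PowerSeries ℚ) (k : ℕ) : PowerSeries.coeff (k + 1) (x * (1 + x) * im * R) =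
    PowerSeries.coeff (k + 1) (x * im * R) + PowerSeries.coeff k (x * im * R) := by
  have e : x * (1 + x) * im * R = x * im * R + x * (x * im * R) := by ring
  rw [e, map_add, PowerSeries.coeff_succ_X_mul]

theorem pre_two_zero (R : PowerSeries ℚ) : PowerSeries.coeff 0 (x * (1 + x) * im * R) = 0 := by
  simp [mul_assoc]

def dl (i k : ℕ) : ℚ := if k = i then 1 else 0

theorem ann_row (n : ℕ) : ∀ i < n, Ann n (Psi n) (dl i) (fun k => -PowerSeries.coeff k (row i)) := by
  induction n with
  | zero => simp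
  | succ n ih =>
    intro i
    induction i using Nat.twoStepInduction with
    | zero =>
      intro _
      refine (Ann.zero n _).layer (ζ := fun _ => 0) (η := fun _ => -1) rfl (by simp) (by simp) rfl
        (by simp) (by simp [dl]) (by simp [row, mul_assoc]) (by simp [dl]) fun k => ?_
      have h1 : ∀ k, PowerSeries.coeff (k + 1) (x * im * 2) = 2 := by
        intro k
        induction k with
        | zero => rw [pre_succ, pre_zero]; simp [map_ofNat]
        | succ k ih =>
          rw [pre_succ, ih, show (2 : PowerSeries ℚ) = PowerSeries.C 2 from rfl]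
          simp
      rw [row, show 2 * x * im = x * im * 2 by ring, h1]; norm_num
    | one =>
      intro hi
      have h := (ih 0 (by omega)).lin (Ann.zero _ _) (-1) 0
      refine h.layer (ζ := fun k => dl 1 k - 2 * dl 0 k)
        (η := fun k => -PowerSeries.coeff k (x * im * row 0)) (by simp [dl]; omega)
        (by norm_num [dl]) (fun k _ => by simp [dl]; split_ifs <;> simp) (by simp [dl]; omega)
        (fun k => by rw [pre_succ]; ring) (by simp [dl, pre_zero]) ?_ (by simp [dl]) fun k => ?_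
      · rw [row, map_add, pre_two_zero]; simp [dl, map_ofNat]
      · rw [show row 1 = -2 + x * (1 + x) * im * row 0 from rfl, map_add, pre_two,
          show (2 : PowerSeries ℚ) = PowerSeries.C 2 from rfl]
        simp; ring
    | more i _ ih1 =>
      intro hi
      have h := (ih (i + 1) (by omega)).lin (ih i (by omega)) (-1) (-1)
      have h2 : Ann (n + 1) (Psi (n + 1)) (fun k => dl (i + 2) k - dl (i + 1) k)
          (fun k => -PowerSeries.coeff k (x * (1 + x) * im * (row (i + 1) + row i))) := by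
        refine h.layer (ζ := fun k => dl (i + 2) k - dl (i + 1) k)
          (η := fun k => -PowerSeries.coeff k (x * im * (row (i + 1) + row i))) ?_ ?_
          (fun k _ => ?_) ?_ (fun k => by rw [pre_succ, map_add]; ring) (by simp [dl, pre_zero])
          (by rw [pre_two_zero]; simp [dl]) (fun _ => rfl) fun k => by rw [pre_two]; ring
        · simp only [dl]; rw [if_neg (by omega), if_neg (by omega)]; simp
        · simp only [dl]; split_ifs <;> first | contradiction | omega | simp
        · simp only [dl]; split_ifs <;> first | contradiction | omega | simp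
        · simp only [dl]; rw [if_neg (by omega), if_neg (by omega)]; simp
      refine (h2.lin (ih1 (by omega)) 1 1).congr (fun k _ => by ring) fun k _ => ?_
      rw [row, map_add]; ring

def hole (a b : ℕ) : List Bool := List.replicate a true ++ false :: List.replicate b true

theorem NN_full : ∀ (b : ℕ) (ξ : ℕ → ℚ) (f : List Bool → ℚ),
    NN ξ (fun _ => 0) f (List.replicate b true) = 0
  | 0, _, _ => rfl
  | b + 1, ξ, f => by simp [List.replicate_succ, NN, NN_full b]

theorem NN_hole (b : ℕ) : ∀ (a : ℕ) (ξ : ℕ → ℚ) (f : List Bool → ℚ),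
    NN ξ (fun _ => 0) f (hole a b) = (-1) ^ a * ξ a * f (List.replicate (a + b + 1) true)
  | 0, ξ, f => by simp [hole, NN, NN_full, List.replicate_succ]
  | a + 1, ξ, f => by
    have e : hole (a + 1) b = true :: hole a b := rfl
    rw [e, NN, NN_hole b a, show a + 1 + b + 1 = (a + b + 1) + 1 by ring,
      List.replicate_succ (n := a + b + 1)]
    simp [pow_succ]

theorem psi_prop (m : ℕ) : ∃ (V : Polynomial ℚ) (c : ℚ), LC V ∧
    ∀ a b, a + b = 2 * m → Psi (2 * m + 1) (hole a b) = c * V.coeff a := by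
  obtain ⟨V, hP, hd, h0, hL⟩ := good m
  refine ⟨V, Psi (2 * m + 1) (hole 0 (2 * m)) / V.coeff 0, hL, fun a b hab => ?_⟩
  have h : Ann (2 * m + 1) (Psi (2 * m + 1)) (fun k => (-1) ^ k * V.coeff k) (fun _ => 0) := by
    refine (Ann.sum (fun i => (-1) ^ i * V.coeff i) _ (ann_row (2 * m + 1))).congr
      (fun k hk => ?_) fun k hk => ?_
    · simp [dl, hk]
    · simp only [mul_neg, sum_neg_distrib, kernel hP (by omega) k hk, neg_zero]
  rcases a with _ | a
  · rw [zero_add] at hab
    rw [hab]; field_simp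
  · have := h (false :: hole a b) (by simp [hole]; omega)
    rw [NN, NN_hole, show a + b + 1 = 2 * m by omega] at this
    have e : hole (a + 1) b = true :: hole a b := rfl
    have e' : hole 0 (2 * m) = false :: List.replicate (2 * m) true := rfl
    have sq : ((-1 : ℚ) ^ a) * (-1) ^ a = 1 := by rw [← mul_pow]; simp
    rw [e, e']
    simp only [Bool.false_eq_true, if_false, pow_zero, one_mul, Bool.not_false, pow_succ] at this
    field_simp
    linear_combination this + V.coeff (a + 1) *
      Psi (2 * m + 1) (false :: List.replicate (2 * m) true) * sq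

theorem psi_lc (m a b : ℕ) (h : a + 2 + b = 2 * m) :
    Psi (2 * m + 1) (hole a (b + 2)) * Psi (2 * m + 1) (hole (a + 2) b) ≤
      Psi (2 * m + 1) (hole (a + 1) (b + 1)) ^ 2 := by
  obtain ⟨V, c, hL, hp⟩ := psi_prop m
  rw [hp _ _ (by omega), hp _ _ h, hp _ _ (by omega)]
  nlinarith [mul_le_mul_of_nonneg_left (hL a) (sq_nonneg c)]

end Pool.Agent.Lib.MP_3b72de_co
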