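import Mathlib
import Pool.Agent.Lib.MP_3b72de_co.Fermion

namespace Pool.Agent.Lib.MP_3b72de_co

open Classical

variable {α : Type}

/-- Perfect matchings of `R` as involutions. -/
def PM (adj : α → α → Prop) (R : Set α) : Set (α → α) :=
  {f | (∀ p, f (f p) = p) ∧ (∀ p, p ∉ R → f p = p) ∧ ∀ p ∈ R, adj p (f p)}

noncomputable def cnt (adj : α → α → Prop) (R : Set α) : ℚ := (PM adj R).ncard

variable {adj : α → α → Prop}

theorem PM.mem {R : Set α} {f : α → α} (h : f ∈ PM adj R) {p : α} (hp : p ∈ R) : f p ∈ R := by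
  by_contra hn
  have := h.2.1 _ hn
  rw [h.1] at this
  exact hn (this ▸ hp)

theorem PM.finite {R : Set α} (hR : R.Finite) : (PM adj R).Finite := by
  have := hR.to_subtype
  refine Set.finite_coe_iff.1 (Finite.of_injective
    (fun (f : PM adj R) (p : R) => (⟨f.1 p, PM.mem f.2 p.2⟩ : R)) ?_)
  intro f g h
  ext p
  by_cases hp : p ∈ R
  · exact congrArg Subtype.val (congrFun h ⟨p, hp⟩)
  · rw [f.2.2.1 p hp, g.2.2.1 p hp]

theorem cnt_empty : cnt adj (∅ : Set α) = 1 := by
  have : PM adj (∅ : Set α) = {id} := by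
    ext f
    simp only [PM, Set.mem_ofPred_eq, Set.mem_singleton_iff]
    constructor
    · rintro ⟨-, h, -⟩; funext p; exact h p (by simp)
    · rintro rfl; simp
  simp [cnt, this]

theorem fib {R : Set α} {s q : α} (hs : s ∈ R) (h1 : adj s q)
    (h2 : adj q s) : (({f ∈ PM adj R | f s = q}.ncard : ℕ) : ℚ) =
      if q ∈ R then cnt adj (R \ {s, q}) else 0 := by
  split_ifs with hq
  · unfold cnt
    congr 1
    refine Set.ncard_congr (fun f _ => f ∘ Equiv.swap s q) ?_ ?_ ?_
    · rintro f ⟨⟨a, b, c⟩, rfl⟩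
      have hi : Function.Injective f := Function.Involutive.injective a
      refine ⟨fun p => ?_, fun p hp => ?_, fun p hp => ?_⟩
      · simp only [Function.comp_apply, Equiv.swap_apply_def]; grind
      · simp only [Function.comp_apply, Equiv.swap_apply_def]; grind
      · simp only [Function.comp_apply, Equiv.swap_apply_def]; grind
    · intro f g _ _ h
      exact (Equiv.swap s q).surjective.injective_comp_right h
    · rintro g ⟨a, b, c⟩
      have hi : Function.Injective g := Function.Involutive.injective a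
      have gs : g s = s := b s (by simp)
      have gq : g q = q := b q (by simp)
      refine ⟨g ∘ Equiv.swap s q, ⟨⟨fun p => ?_, fun p hp => ?_, fun p hp => ?_⟩, by simp [gq]⟩,
        by funext p; simp⟩
      · simp only [Function.comp_apply, Equiv.swap_apply_def]; grind
      · simp only [Function.comp_apply, Equiv.swap_apply_def]; grind
      · simp only [Function.comp_apply, Equiv.swap_apply_def]; grind
  · have : {f ∈ PM adj R | f s = q} = ∅ := by
      ext f
      simp only [Set.mem_ofPred_eq, Set.mem_empty_iff_false, iff_false, not_and]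
      rintro hf rfl
      exact hq (PM.mem hf hs)
    simp [this]

theorem cnt_none {R : Set α} {s : α} (hs : s ∈ R) (h : ∀ q ∈ R, ¬adj s q) : cnt adj R = 0 := by
  have : PM adj R = ∅ := by
    ext f
    simp only [Set.mem_empty_iff_false, iff_false]
    exact fun hf => h _ (PM.mem hf hs) (hf.2.2 s hs)
  simp [cnt, this]

theorem cnt_one {R : Set α} {s q : α} (hs : s ∈ R) (h1 : adj s q)
    (h2 : adj q s) (h : ∀ a ∈ R, adj s a → a = q) :
    cnt adj R = if q ∈ R then cnt adj (R \ {s, q}) else 0 := by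
  rw [← fib hs h1 h2, cnt]
  congr 2
  ext f
  exact ⟨fun hf => ⟨hf, h _ (PM.mem hf hs) (hf.2.2 s hs)⟩, fun hf => hf.1⟩

theorem cnt_two {R : Set α} (hR : R.Finite) {s q r : α} (hs : s ∈ R)
    (h1 : adj s q) (h2 : adj q s) (h3 : adj s r) (h4 : adj r s) (hqr : q ≠ r)
    (h : ∀ a ∈ R, adj s a → a = q ∨ a = r) :
    cnt adj R = (if q ∈ R then cnt adj (R \ {s, q}) else 0) +
      if r ∈ R then cnt adj (R \ {s, r}) else 0 := by
  rw [← fib hs h1 h2, ← fib hs h3 h4, cnt, ← Nat.cast_add, ← Set.ncard_union_eq ?_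
    ((PM.finite hR).subset fun f hf => hf.1) ((PM.finite hR).subset fun f hf => hf.1)]
  · congr 2
    ext f
    constructor
    · intro hf
      rcases h _ (PM.mem hf hs) (hf.2.2 s hs) with e | e
      · exact Or.inl ⟨hf, e⟩
      · exact Or.inr ⟨hf, e⟩
    · rintro (hf | hf) <;> exact hf.1
  · rw [Set.disjoint_left]
    rintro f ⟨-, e⟩ ⟨-, e'⟩
    exact hqr (e.symm.trans e')

/-- The points `p (j + i)` with `W[i]` true. -/
def pts (p : ℕ → α) (j : ℕ) (W : List Bool) : Set α := {a | ∃ i, W[i]? = some true ∧ a = p (j + i)}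

theorem pts_nil (p : ℕ → α) (j : ℕ) : pts p j [] = ∅ := by simp [pts]

theorem mem_pts_cons (p : ℕ → α) (j : ℕ) (b : Bool) (W : List Bool) (a : α) :
    a ∈ pts p j (b :: W) ↔ (b = true ∧ a = p j) ∨ a ∈ pts p (j + 1) W := by
  simp only [pts, Set.mem_ofPred_eq]
  constructor
  · rintro ⟨_ | i, h1, h2⟩
    · left; simpa using ⟨by simpa using h1, h2⟩
    · right; exact ⟨i, by simpa using h1, by rw [h2]; congr 1; ring⟩
  · rintro (⟨h1, h2⟩ | ⟨i, h1, h2⟩)
    · exact ⟨0, by simpa using h1, h2⟩
    · exact ⟨i + 1, by simpa using h1, by rw [h2]; congr 1; ring⟩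

theorem pts_ge {p : ℕ → α} {j : ℕ} {W : List Bool} {a : α} (h : a ∈ pts p j W) :
    ∃ i, j ≤ i ∧ i < j + W.length ∧ a = p i := by
  obtain ⟨i, h1, h2⟩ := h
  have : i < W.length := by
    by_contra hn
    rw [List.getElem?_eq_none (by omega)] at h1
    cases h1
  exact ⟨j + i, by omega, by omega, h2⟩

theorem pts_finite (p : ℕ → α) (j : ℕ) (W : List Bool) : (pts p j W).Finite := by
  refine ((Set.finite_lt_nat (j + W.length)).image p).subset fun a ha => ?_
  obtain ⟨i, -, h2, rfl⟩ := pts_ge ha
  exact ⟨i, h2, rfl⟩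

/-- Count after removing the points marked in `U`. -/
noncomputable def rem (adj : α → α → Prop) (q : ℕ → α) (R : Set α) (j : ℕ) (U : List Bool) : ℚ :=
  if pts q j U ⊆ R then cnt adj (R \ pts q j U) else 0

theorem rem_false (q : ℕ → α) (R : Set α) (j : ℕ) :
    (fun U => rem adj q R j (false :: U)) = rem adj q R (j + 1) := by
  funext U
  have : pts q j (false :: U) = pts q (j + 1) U := by ext a; simp [mem_pts_cons]
  simp only [rem, this]

theorem rem_true {q : ℕ → α} (hq : Function.Injective q) (R : Set α) (j : ℕ) :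
    (fun U => rem adj q R j (true :: U)) =
      fun U => if q j ∈ R then rem adj q (R \ {q j}) (j + 1) U else 0 := by
  funext U
  have e : pts q j (true :: U) = insert (q j) (pts q (j + 1) U) := by ext a; simp [mem_pts_cons]
  have hn : q j ∉ pts q (j + 1) U := fun h => by
    obtain ⟨i, h1, -, h2⟩ := pts_ge h
    have := hq h2
    omega
  have e' : pts q (j + 1) U ⊆ R \ {q j} ↔ pts q (j + 1) U ⊆ R :=
    ⟨fun h => h.trans Set.sdiff_subset, fun h => Set.subset_sdiff_singleton h hn⟩
  simp only [rem, e, Set.insert_subset_iff, e', Set.sdiff_sdiff]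
  by_cases h : q j ∈ R <;> simp [h]

structure Zig (adj : α → α → Prop) (p q : ℕ → α) (S : Set α) : Prop where
  symm : ∀ a b, adj a b → adj b a
  fin : S.Finite
  pinj : Function.Injective p
  qinj : Function.Injective q
  pS : ∀ i, p i ∉ S
  pq : ∀ i j, p i ≠ q j
  pp : ∀ i j, ¬adj (p i) (p j)
  a1 : ∀ i, adj (p i) (q i)
  a2 : ∀ i, adj (p (i + 1)) (q i)
  nb : ∀ i, ∀ a ∈ S, adj (p (i + 1)) a → a = q (i + 1) ∨ a = q i

theorem Zig.zg_eq {p q : ℕ → α} {S : Set α} (Z : Zig adj p q S) :
    ∀ (W : List Bool) (j : ℕ) (R : Set α), R ⊆ S →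
      zg (rem adj q R j) false W = cnt adj (R ∪ pts p (j + 1) W) ∧
      zg (rem adj q R j) true W =
        if q j ∈ R then cnt adj ((R \ {q j}) ∪ pts p (j + 1) W) else 0
  | [], j, R, _ => by
    have e : ∀ b, pts q j [b] = if b then {q j} else ∅ := by
      intro b; ext a; cases b <;> simp [mem_pts_cons, pts_nil]
    simp [zg, rem, e, pts_nil]
  | b :: W, j, R, hR => by
    have ih := Z.zg_eq W (j + 1)
    have hd : ∀ R : Set α, R ⊆ S → ∀ a, R \ {a} ⊆ S := fun R h a => Set.sdiff_subset.trans h
    have z0 : ∀ (c : Prop) [Decidable c] (f : List Bool → ℚ) (u : Bool),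
        zg (fun U => if c then f U else 0) u W = if c then zg f u W else 0 := by
      intro c _ f u
      split_ifs
      · rfl
      · exact zg_zero W u
    cases b
    · have e : pts p (j + 1) (false :: W) = pts p (j + 1 + 1) W := by ext a; simp [mem_pts_cons]
      simp only [zg, rem_false, rem_true Z.qinj, z0, e, (ih R hR).1, (ih _ (hd R hR _)).1]
      simp
    · have hp : p (j + 1) ∉ pts p (j + 1 + 1) W := fun h => by
        obtain ⟨i, h1, -, h2⟩ := pts_ge h
        have := Z.pinj h2
        omega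
      have hq : ∀ i k U, q i ∉ pts p k U := fun i k U h => by
        obtain ⟨i, -, -, h2⟩ := pts_ge h
        exact Z.pq _ _ h2.symm
      have peel : ∀ R : Set α, R ⊆ S → cnt adj (R ∪ pts p (j + 1) (true :: W)) =
          (if q (j + 1) ∈ R then cnt adj ((R \ {q (j + 1)}) ∪ pts p (j + 1 + 1) W) else 0) +
          if q j ∈ R then cnt adj ((R \ {q j}) ∪ pts p (j + 1 + 1) W) else 0 := by
        intro R hR
        have e : ∀ i, (R ∪ pts p (j + 1) (true :: W)) \ {p (j + 1), q i} =
            (R \ {q i}) ∪ pts p (j + 1 + 1) W := by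
          intro i
          ext a
          have := Z.pS (j + 1)
          have := hq i (j + 1 + 1) W
          simp only [Set.mem_sdiff, Set.mem_union, mem_pts_cons, Set.mem_insert_iff,
            Set.mem_singleton_iff]
          grind
        rw [cnt_two ((Z.fin.subset hR).union (pts_finite _ _ _)) (s := p (j + 1))
          (by simp [mem_pts_cons]) (Z.a1 _) (Z.symm _ _ (Z.a1 _)) (Z.a2 _) (Z.symm _ _ (Z.a2 _))
          (fun h => by simpa using Z.qinj h), e, e]
        · simp [hq]
        · rintro a (ha | ha) h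
          · exact Z.nb _ _ (hR ha) h
          · obtain ⟨i, -, -, rfl⟩ := pts_ge ha
            exact absurd h (Z.pp _ _)
      simp only [zg, rem_false, rem_true Z.qinj, z0, (ih R hR).2, (ih _ (hd R hR _)).1,
        (ih _ (hd R hR _)).2, peel R hR, peel _ (hd R hR _)]
      simp

theorem Zig.zig_eq {p q : ℕ → α} {S : Set α} (Z : Zig adj p q S)
    (nb0 : ∀ a ∈ S, adj (p 0) a → a = q 0) (u : Bool) (W : List Bool) :
    zig (rem adj q S 0) (u :: W) = cnt adj (S ∪ pts p 0 (u :: W)) := by
  have h := Z.zg_eq W 0 S subset_rfl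
  cases u
  · have e : pts p 0 (false :: W) = pts p (0 + 1) W := by ext a; simp [mem_pts_cons]
    rw [e, ← h.1]; rfl
  · have hq : ∀ i k U, q i ∉ pts p k U := fun i k U h => by
      obtain ⟨i, -, -, h2⟩ := pts_ge h
      exact Z.pq _ _ h2.symm
    have hp : p 0 ∉ pts p (0 + 1) W := fun h => by
      obtain ⟨i, h1, -, h2⟩ := pts_ge h
      have := Z.pinj h2
      omega
    have e : (S ∪ pts p 0 (true :: W)) \ {p 0, q 0} = (S \ {q 0}) ∪ pts p (0 + 1) W := by
      ext a
      have := Z.pS 0
      have := hq 0 (0 + 1) W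
      simp only [Set.mem_sdiff, Set.mem_union, mem_pts_cons, Set.mem_insert_iff,
        Set.mem_singleton_iff]
      grind
    rw [cnt_one (s := p 0) (by simp [mem_pts_cons]) (Z.a1 _) (Z.symm _ _ (Z.a1 _)), e, zig,
      h.2]
    · simp [hq]
    · rintro a (ha | ha) h
      · exact nb0 _ ha h
      · obtain ⟨i, -, -, rfl⟩ := pts_ge ha
        exact absurd h (Z.pp _ _)

theorem rem_flip {q : ℕ → α} (hq : Function.Injective q) {R : Set α} (hR : ∀ i, q i ∉ R)
    (U : List Bool) :
    rem adj q (R ∪ q '' Set.Iio U.length) 0 U = cnt adj (R ∪ pts q 0 (U.map not)) := by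
  rw [rem, if_pos]
  · congr 1
    ext a
    simp only [Set.mem_sdiff, Set.mem_union, Set.mem_image, Set.mem_Iio, pts, Set.mem_ofPred_eq,
      zero_add, List.getElem?_map]
    constructor
    · rintro ⟨h | ⟨i, hi, rfl⟩, h2⟩
      · exact Or.inl h
      · refine Or.inr ⟨i, ?_, rfl⟩
        rw [List.getElem?_eq_getElem hi]
        cases e : U[i]
        · rfl
        · exact absurd ⟨i, by rw [List.getElem?_eq_getElem hi, e], rfl⟩ h2
    · rintro (h | ⟨i, hi, rfl⟩)
      · exact ⟨Or.inl h, fun ⟨i, _, e⟩ => hR i (e ▸ h)⟩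
      · have : i < U.length := by
          by_contra hn
          rw [List.getElem?_eq_none (by omega)] at hi
          cases hi
        refine ⟨Or.inr ⟨i, this, rfl⟩, fun ⟨k, h1, h2⟩ => ?_⟩
        rw [hq h2, h1] at hi
        cases hi
  · intro a ha
    obtain ⟨i, -, h2, rfl⟩ := pts_ge ha
    exact Or.inr ⟨i, by simpa using h2, rfl⟩

theorem rem_ext {q : ℕ → α} (hq : Function.Injective q) {R : Set α} (hR : ∀ i, q i ∉ R)
    (U : List Bool) (b : Bool) : rem adj q (R ∪ q '' Set.Iio U.length) 0 (U ++ [b]) =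
      if b then 0 else cnt adj (R ∪ pts q 0 (U.map not)) := by
  cases b
  · have e : pts q 0 (U ++ [false]) = pts q 0 U := by
      ext a
      simp only [pts, Set.mem_ofPred_eq]
      refine exists_congr fun i => and_congr_left fun _ => ?_
      rw [List.getElem?_append]
      split_ifs with h
      · rfl
      · rw [List.getElem?_eq_none (not_lt.1 h), List.getElem?_singleton]
        split_ifs <;> simp
    rw [← rem_flip hq hR U]
    simp only [rem, e]
    simp
  · rw [rem, if_neg, if_pos rfl]
    intro h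
    rcases h (a := q U.length) ⟨U.length, by simp, by simp⟩ with h | ⟨i, hi, e⟩
    · exact hR _ h
    · exact (ne_of_lt hi) (hq e)

end Pool.Agent.Lib.MP_3b72de_co
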