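import Mathlib
import Pool.Agent.Lib.MP_3b72de_co.Match

namespace Pool.Agent.Lib.MP_3b72de_co

def adjD (p q : ℤ × ℤ) : Prop :=
  (p.1 = q.1 ∧ (p.2 = q.2 + 1 ∨ q.2 = p.2 + 1)) ∨ (p.2 = q.2 ∧ (p.1 = q.1 + 1 ∨ q.1 = p.1 + 1))

def adjH (p q : ℤ × ℤ) : Prop :=
  (p.1 < 0 ∧ q.1 < 0 ∧ adjD p q) ∨ (p.1 = -1 ∧ q.1 = 0 ∧ (p.2 = q.2 ∨ p.2 = q.2 + 1)) ∨
    (q.1 = -1 ∧ p.1 = 0 ∧ (q.2 = p.2 ∨ q.2 = p.2 + 1))

def dg (c : ℤ) (k : ℕ) : ℤ × ℤ := (-k - 1, c + k)

def Up (e : ℤ) (n : ℕ) : Set (ℤ × ℤ) :=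
  {p | (p.1 < 0 ∧ e - 2 * n ≤ p.1 + p.2 ∧ p.2 - p.1 ≤ e) ∨
    (p.1 = 0 ∧ e - 2 * n ≤ p.2 ∧ p.2 ≤ e - 2 ∧ (p.2 - e) % 2 = 0)}

theorem mem_dg (c : ℤ) (n : ℕ) (p : ℤ × ℤ) :
    p ∈ dg c '' Set.Iio n ↔ p.1 < 0 ∧ -n ≤ p.1 ∧ p.1 + p.2 = c - 1 := by
  constructor
  · rintro ⟨k, hk, rfl⟩
    simp only [Set.mem_Iio] at hk
    simp only [dg]; omega
  · intro h
    refine ⟨(-p.1 - 1).toNat, by simp only [Set.mem_Iio]; omega, ?_⟩
    simp only [dg, Prod.ext_iff]; omega

theorem dg_inj (c : ℤ) : Function.Injective (dg c) := by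
  intro i j h
  simp only [dg, Prod.ext_iff] at h; omega

theorem Up_finite (e : ℤ) (n : ℕ) : (Up e n).Finite := by
  refine ((Set.finite_Icc (-n : ℤ) 0).prod (Set.finite_Icc (e - 2 * n) e)).subset fun p hp => ?_
  simp only [Up, Set.mem_ofPred_eq, Set.mem_prod, Set.mem_Icc] at hp ⊢
  omega

theorem adjH_symm (p q : ℤ × ℤ) (h : adjH p q) : adjH q p := by
  simp only [adjH, adjD] at h ⊢; omega

theorem zig_dg {c : ℤ} {S : Set (ℤ × ℤ)} (hS : S.Finite)
    (h : ∀ p ∈ S, (p.1 < 0 ∧ c ≤ p.1 + p.2) ∨ (p.1 = 0 ∧ c < p.2)) :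
    Zig adjH (dg c) (dg (c + 1)) S ∧ ∀ a ∈ S, adjH (dg c 0) a → a = dg (c + 1) 0 := by
  refine ⟨⟨adjH_symm, hS, dg_inj _, dg_inj _, fun i hi => ?_, fun i j => ?_, fun i j => ?_,
    fun i => ?_, fun i => ?_, fun i a ha => ?_⟩, fun a ha => ?_⟩
  · have := h _ hi
    simp only [dg] at this; omega
  · simp only [dg, ne_eq, Prod.ext_iff]; omega
  · simp only [dg, adjH, adjD]; omega
  · simp only [dg, adjH, adjD, true_and]; omega
  · simp only [dg, adjH, adjD]; omega
  · have := h _ ha
    simp only [dg, adjH, adjD, Prod.ext_iff]; omega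
  · have := h _ ha
    simp only [dg, adjH, adjD, Prod.ext_iff]; omega

theorem mem_pts_dg {c : ℤ} {j : ℕ} {W : List Bool} {p : ℤ × ℤ} (h : p ∈ pts (dg c) j W) :
    p.1 < -j ∧ p.1 + p.2 = c - 1 := by
  obtain ⟨i, h1, -, rfl⟩ := pts_ge h
  simp only [dg]; omega

theorem cnt_Up (e : ℤ) : ∀ (n : ℕ) (I : List Bool), I.length = n →
    cnt adjH (Up e n ∪ pts (dg (e - 2 * n)) 0 I) = Psi n I
  | 0, I, h => by
    obtain rfl : I = [] := List.length_eq_zero_iff.1 h
    have : Up e 0 = ∅ := by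
      ext p; simp only [Up, Set.mem_ofPred_eq, Set.mem_empty_iff_false, iff_false]; omega
    rw [this, pts_nil, Set.union_empty, cnt_empty]; rfl
  | n + 1, [], h => by simp at h
  | n + 1, u :: I, h => by
    have hI : I.length = n := by simpa using h
    set c : ℤ := e - 2 * (n + 1 : ℕ) with hc
    have hc2 : e - 2 * n = c + 1 + 1 := by rw [hc]; push_cast; ring
    have ih := cnt_Up e n
    rw [hc2] at ih
    set S1 := Up e n ∪ dg (c + 1 + 1) '' Set.Iio n with hS1
    set S2 := S1 ∪ dg (c + 1) '' Set.Iio (n + 1) with hS2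
    have f1 : S1.Finite := (Up_finite e n).union ((Set.finite_Iio n).image _)
    have f2 : S2.Finite := f1.union ((Set.finite_Iio _).image _)
    obtain ⟨Z1, n1⟩ := zig_dg (c := c + 1) f1 fun p hp => by
      simp only [hS1, Set.mem_union, mem_dg, Up, Set.mem_ofPred_eq] at hp; omega
    obtain ⟨Z2, -⟩ := zig_dg (c := c) f2 fun p hp => by
      simp only [hS2, hS1, Set.mem_union, mem_dg, Up, Set.mem_ofPred_eq] at hp; omega
    have s1 : ∀ W : List Bool, W.length = n + 1 →
        cnt adjH (S1 ∪ pts (dg (c + 1)) 0 W) = zig (ext (flip (Psi n))) W := by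
      rintro (_ | ⟨a, W⟩) hW
      · simp at hW
      rw [← Z1.zig_eq n1]
      refine zg_congr W a fun l hl => ?_
      rcases l.eq_nil_or_concat with rfl | ⟨l, b, rfl⟩
      · simp at hl
      have hl' : l.length = n := by simp at hl hW; omega
      rw [List.concat_eq_append, ext_concat, hS1, ← hl', rem_ext (dg_inj _), hl', flip,
        ih _ (by simpa using hl')]
      intro i hi
      simp only [Up, dg, Set.mem_ofPred_eq] at hi; omega
    have s2 : ∀ a, zg (rem adjH (dg (c + 1)) S2 0) a I =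
        zg (flip (zig (ext (flip (Psi n))))) a I := by
      intro a
      refine zg_congr I a fun l hl => ?_
      rw [hI] at hl
      rw [hS2, ← hl, rem_flip (dg_inj _) Z1.pS, flip, s1 _ (by simpa using hl)]
    have hz := Z2.zg_eq I 0 S2 subset_rfl
    have hU : ∀ p, p ∈ Up e (n + 1) ↔ p ∈ S2 ∨ p = (0, c) := by
      intro p
      simp only [hS2, hS1, Set.mem_union, mem_dg, Up, Set.mem_ofPred_eq, Prod.ext_iff]; omega
    have hzS : (0, c) ∉ S2 := by
      simp only [hS2, hS1, Set.mem_union, mem_dg, Up, Set.mem_ofPred_eq]; omega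
    have hS : ∀ p ∈ S2, (p.1 < 0 ∧ c ≤ p.1 + p.2) ∨ (p.1 = 0 ∧ c + 2 ≤ p.2) := fun p hp => by
      simp only [hS2, hS1, Set.mem_union, mem_dg, Up, Set.mem_ofPred_eq] at hp; omega
    have hw : dg (c + 1) 0 ∈ S2 := Or.inr ⟨0, by simp, rfl⟩
    have hp := fun p => @mem_pts_dg c (0 + 1) I p
    have aw : adjH (0, c) (dg (c + 1) 0) := by simp [adjH, dg]
    have ab : adjH (0, c) (dg c 0) := by simp [adjH, dg]
    show _ = zg _ (!u) I
    rw [← s2]
    cases u
    · rw [Bool.not_false, hz.2, if_pos hw, cnt_one (s := (0, c)) (Or.inl ((hU _).2 (Or.inr rfl))) aw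
        (adjH_symm _ _ aw), if_pos (Set.mem_union_left _ ((hU _).2 (Or.inl hw)))]
      · congr 1
        ext p
        have := hp p
        simp only [Set.mem_sdiff, Set.mem_union, hU, mem_pts_cons, Set.mem_insert_iff,
          Set.mem_singleton_iff]
        constructor
        · grind
        · rintro (⟨h1, h2⟩ | h1)
          · grind
          · refine ⟨Or.inr (Or.inr h1), ?_⟩
            have := hp p h1
            simp only [dg, Prod.ext_iff]; omega
      · intro a ha
        simp only [Set.mem_union, hU, mem_pts_cons] at ha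
        rcases ha with (ha | rfl) | ha | ha
        · have := hS a ha
          simp only [dg, adjH, adjD, Prod.ext_iff]; omega
        · simp [adjH]
        · simp at ha
        · have := hp a ha
          simp only [dg, adjH, adjD, Prod.ext_iff]; omega
    · have hb : dg c 0 ∈ pts (dg c) 0 (true :: I) := by simp [mem_pts_cons]
      rw [Bool.not_true, hz.1, cnt_two ((Up_finite _ _).union (pts_finite _ _ _)) (s := (0, c))
        (Or.inl ((hU _).2 (Or.inr rfl))) aw (adjH_symm _ _ aw) ab (adjH_symm _ _ ab)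
        (Z2.pq _ _).symm, if_pos (Set.mem_union_left _ ((hU _).2 (Or.inl hw))), if_pos (Set.mem_union_right _ hb),
        cnt_none (s := dg c 0) (Set.mem_sdiff_of_mem (Set.mem_union_right _ hb) (by simp [dg])),
        zero_add]
      · congr 1
        ext p
        simp only [Set.mem_sdiff, Set.mem_union, hU, mem_pts_cons, Set.mem_insert_iff,
          Set.mem_singleton_iff]
        constructor
        · grind
        · rintro (h1 | h1)
          · refine ⟨Or.inl (Or.inl h1), ?_⟩
            have := hS p h1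
            simp only [dg, Prod.ext_iff]; omega
          · refine ⟨Or.inr (Or.inr h1), ?_⟩
            have := hp p h1
            simp only [dg, Prod.ext_iff]; omega
      · rintro a ⟨ha, ha'⟩
        simp only [Set.mem_union, hU, mem_pts_cons, Set.mem_insert_iff, Set.mem_singleton_iff,
          dg, Prod.ext_iff] at ha ha'
        rcases ha with (ha | ha) | ha | ha
        · have := hS a ha
          simp only [dg, adjH, adjD]; omega
        · omega
        · simp only [dg, adjH, adjD]; omega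
        · have := hp a ha
          simp only [dg, adjH, adjD]; omega
      · intro a ha
        simp only [Set.mem_union, hU, mem_pts_cons] at ha
        rcases ha with (ha | rfl) | ha | ha
        · have := hS a ha
          simp only [dg, adjH, adjD, Prod.ext_iff]; omega
        · simp [adjH]
        · exact fun _ => Or.inr ha.2
        · have := hp a ha
          simp only [dg, adjH, adjD, Prod.ext_iff]; omega

end Pool.Agent.Lib.MP_3b72de_co
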