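import Mathlib
import Pool.Agent.Lib.MP_3b72de_co.Layer
import Pool.Agent.Lib.MP_3b72de_co.Defs

namespace Pool.Agent.Lib.MP_3b72de_co

open Classical

theorem mem_AD (m : ℕ) (s : ℤ × ℤ) : s ∈ AD m ↔
    s.1 + s.2 + 1 ≤ m ∧ s.1 - s.2 ≤ m ∧ s.2 - s.1 ≤ m ∧ -s.1 - s.2 ≤ m + 1 := by
  constructor
  · intro h
    have a1 : (s.1 : ℝ) ∈ Set.Icc (s.1 : ℝ) (s.1 + 1) := by simp
    have a2 : (s.1 + 1 : ℝ) ∈ Set.Icc (s.1 : ℝ) (s.1 + 1) := by simp
    have b1 : (s.2 : ℝ) ∈ Set.Icc (s.2 : ℝ) (s.2 + 1) := by simp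
    have b2 : (s.2 + 1 : ℝ) ∈ Set.Icc (s.2 : ℝ) (s.2 + 1) := by simp
    have h1 := h _ a2 _ b2
    have h2 := h _ a2 _ b1
    have h3 := h _ a1 _ b2
    have h4 := h _ a1 _ b1
    have c1 : (s.1 + s.2 + 1 : ℝ) ≤ m := by
      linarith [le_abs_self (s.1 + 1 : ℝ), le_abs_self (s.2 + 1 : ℝ)]
    have c2 : (s.1 - s.2 : ℝ) ≤ m := by
      linarith [le_abs_self (s.1 + 1 : ℝ), neg_le_abs (s.2 : ℝ)]
    have c3 : (s.2 - s.1 : ℝ) ≤ m := by
      linarith [le_abs_self (s.2 + 1 : ℝ), neg_le_abs (s.1 : ℝ)]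
    have c4 : (-s.1 - s.2 : ℝ) ≤ m + 1 := by
      linarith [neg_le_abs (s.2 : ℝ), neg_le_abs (s.1 : ℝ)]
    exact ⟨by exact_mod_cast c1, by exact_mod_cast c2, by exact_mod_cast c3, by exact_mod_cast c4⟩
  · rintro ⟨h1, h2, h3, h4⟩ x ⟨x1, x2⟩ y ⟨y1, y2⟩
    have c1 : (s.1 + s.2 + 1 : ℝ) ≤ m := by exact_mod_cast h1
    have c2 : (s.1 - s.2 : ℝ) ≤ m := by exact_mod_cast h2
    have c3 : (s.2 - s.1 : ℝ) ≤ m := by exact_mod_cast h3
    have c4 : (-s.1 - s.2 : ℝ) ≤ m + 1 := by exact_mod_cast h4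
    rcases abs_cases x with a | a <;> rcases abs_cases y with b | b <;> linarith

theorem adjD_symm {p q : ℤ × ℤ} (h : adjD p q) : adjD q p := by
  simp only [adjD] at h ⊢; omega

theorem adjD_ne {p q : ℤ × ℤ} (h : adjD p q) : p ≠ q := by
  rintro rfl
  simp only [adjD] at h; omega

theorem isDomino_iff (d : Set (ℤ × ℤ)) : IsDomino d ↔ ∃ p q, adjD p q ∧ d = {p, q} := by
  constructor
  · rintro ⟨i, j, rfl | rfl⟩
    · exact ⟨_, _, by simp [adjD], rfl⟩
    · exact ⟨_, _, by simp [adjD], rfl⟩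
  · rintro ⟨⟨a, b⟩, ⟨c, d⟩, h, rfl⟩
    simp only [adjD] at h
    rcases h with ⟨rfl, rfl | rfl⟩ | ⟨rfl, rfl | rfl⟩
    · exact ⟨_, _, Or.inr (Set.pair_comm _ _)⟩
    · exact ⟨_, _, Or.inr rfl⟩
    · exact ⟨_, _, Or.inl (Set.pair_comm _ _)⟩
    · exact ⟨_, _, Or.inl rfl⟩

def til (R : Set (ℤ × ℤ)) (f : ℤ × ℤ → ℤ × ℤ) : Set (Set (ℤ × ℤ)) := {d | ∃ p ∈ R, d = {p, f p}}

variable {R : Set (ℤ × ℤ)} {f : ℤ × ℤ → ℤ × ℤ}

theorem til_pair (hf : f ∈ PM adjD R) {p q : ℤ × ℤ} (h : p ≠ q) :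
    {p, q} ∈ til R f ↔ f p = q := by
  constructor
  · rintro ⟨a, -, e⟩
    rcases Set.pair_eq_pair_iff.1 e with ⟨rfl, rfl⟩ | ⟨rfl, rfl⟩
    · rfl
    · exact hf.1 _
  · rintro rfl
    refine ⟨p, ?_, rfl⟩
    by_contra hp
    exact h (hf.2.1 p hp).symm

theorem til_tiling (hf : f ∈ PM adjD R) : IsTiling R (til R f) := by
  refine ⟨?_, fun s hs => ⟨{s, f s}, ⟨⟨s, hs, rfl⟩, by simp⟩, ?_⟩⟩
  · rintro d ⟨p, hp, rfl⟩
    exact ⟨(isDomino_iff _).2 ⟨_, _, hf.2.2 p hp, rfl⟩, Set.pair_subset hp (PM.mem hf hp)⟩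
  · rintro d ⟨⟨p, hp, rfl⟩, rfl | rfl⟩
    · rfl
    · rw [hf.1, Set.pair_comm]

theorem til_inj {g : ℤ × ℤ → ℤ × ℤ} (hf : f ∈ PM adjD R) (hg : g ∈ PM adjD R)
    (h : til R f = til R g) : f = g := by
  funext p
  by_cases hp : p ∈ R
  · have : {p, f p} ∈ til R g := h ▸ ⟨p, hp, rfl⟩
    exact ((til_pair hg (adjD_ne (hf.2.2 p hp))).1 this).symm
  · rw [hf.2.1 p hp, hg.2.1 p hp]

theorem til_surj {T : Set (Set (ℤ × ℤ))} (hT : IsTiling R T) : ∃ f ∈ PM adjD R, til R f = T := by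
  have : ∀ p, ∃ q, (p ∉ R → q = p) ∧ (p ∈ R → adjD p q ∧ {p, q} ∈ T) := by
    intro p
    by_cases hp : p ∈ R
    · obtain ⟨d, ⟨h1, h2⟩, -⟩ := hT.2 p hp
      obtain ⟨a, b, h3, rfl⟩ := (isDomino_iff _).1 (hT.1 d h1).1
      rcases h2 with rfl | rfl
      · exact ⟨b, by simp [hp], fun _ => ⟨h3, h1⟩⟩
      · exact ⟨a, by simp [hp], fun _ => ⟨adjD_symm h3, by rwa [Set.pair_comm]⟩⟩
    · exact ⟨p, by simp, by simp [hp]⟩
  choose f h1 h2 using this
  refine ⟨f, ⟨fun p => ?_, h1, fun p hp => (h2 p hp).1⟩, ?_⟩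
  · by_cases hp : p ∈ R
    · have hq : f p ∈ R := (hT.1 _ (h2 p hp).2).2 (by simp)
      have e := (hT.2 _ hq).unique ⟨(h2 p hp).2, by simp⟩ ⟨(h2 _ hq).2, by simp⟩
      have : p ∈ ({f p, f (f p)} : Set (ℤ × ℤ)) := e ▸ by simp
      rcases this with h | h
      · exact absurd h (adjD_ne (h2 p hp).1)
      · exact h.symm
    · rw [h1 p hp, h1 p hp]
  · ext d
    constructor
    · rintro ⟨p, hp, rfl⟩; exact (h2 p hp).2
    · intro hd
      obtain ⟨a, b, -, rfl⟩ := (isDomino_iff _).1 (hT.1 d hd).1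
      have ha : a ∈ R := (hT.1 _ hd).2 (by simp)
      exact ⟨a, ha, (hT.2 _ ha).unique ⟨hd, by simp⟩ ⟨(h2 a ha).2, by simp⟩⟩

theorem mirror_mirror (p : ℤ × ℤ) : mirror (mirror p) = p := by simp [mirror]

theorem mirror_inj : Function.Injective mirror := Function.Involutive.injective mirror_mirror

theorem til_sym (hf : f ∈ PM adjD R) (hR : ∀ p, mirror p ∈ R ↔ p ∈ R) :
    (fun d => mirror '' d) '' til R f = til R f ↔ ∀ p, f (mirror p) = mirror (f p) := by
  constructor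
  · intro h p
    by_cases hp : p ∈ R
    · have : {mirror p, mirror (f p)} ∈ til R f := by
        rw [← h]; exact ⟨_, ⟨p, hp, rfl⟩, Set.image_pair _ _ _⟩
      exact (til_pair hf (mirror_inj.ne (adjD_ne (hf.2.2 p hp)))).1 this
    · rw [hf.2.1 p hp, hf.2.1 _ (by rwa [hR])]
  · intro h
    ext d
    constructor
    · rintro ⟨_, ⟨p, hp, rfl⟩, rfl⟩
      exact ⟨mirror p, (hR p).2 hp, by rw [h]; exact Set.image_pair _ _ _⟩
    · rintro ⟨p, hp, rfl⟩
      refine ⟨_, ⟨mirror p, (hR p).2 hp, rfl⟩, ?_⟩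
      simp only [Set.image_pair, h, mirror_mirror]

theorem til_block (hf : f ∈ PM adjD R) (j : ℤ) (d : Set (ℤ × ℤ)) :
    d ∈ til R f ∧ d ⊆ block (-1, j) ↔
      (d = {(-1, j), (0, j)} ∧ f (-1, j) = (0, j)) ∨
      (d = {(-1, j + 1), (0, j + 1)} ∧ f (-1, j + 1) = (0, j + 1)) ∨
      (d = {(-1, j), (-1, j + 1)} ∧ f (-1, j) = (-1, j + 1)) ∨
      (d = {(0, j), (0, j + 1)} ∧ f (0, j) = (0, j + 1)) := by
  constructor
  · rintro ⟨⟨p, hp, rfl⟩, h⟩
    have h1 := hf.2.2 p hp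
    have h2 := hf.1 p
    simp only [block, Set.pair_subset_iff, Set.mem_insert_iff, Set.mem_singleton_iff,
      neg_add_cancel] at h
    obtain ⟨rfl | rfl | rfl | rfl, e | e | e | e⟩ := h <;> rw [e] at h1 h2 ⊢ <;>
      simp [adjD] at h1 <;> simp [h2, Set.pair_comm]
  · rintro (⟨rfl, h⟩ | ⟨rfl, h⟩ | ⟨rfl, h⟩ | ⟨rfl, h⟩) <;>
      exact ⟨(til_pair hf (by simp)).2 h, by simp [block, Set.pair_subset_iff]⟩

theorem til_cell (hf : f ∈ PM adjD R) (hs : ∀ p, f (mirror p) = mirror (f p)) (j : ℤ) :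
    (∃! d, d ∈ til R f ∧ d ⊆ block (-1, j)) ↔
      (f (-1, j) = (0, j) ↔ f (-1, j + 1) ≠ (0, j + 1)) := by
  simp only [til_block hf]
  have h1 : f (-1, j) = (-1, j + 1) ↔ f (0, j) = (0, j + 1) := by
    have := hs (-1, j)
    rw [← mirror_inj.eq_iff, ← this]; simp [mirror]
  have h2 : f (-1, j) = (-1, j + 1) → f (-1, j + 1) = (-1, j) := fun h => by rw [← h, hf.1]
  constructor
  · rintro ⟨d, hd, hu⟩
    by_cases h : f (-1, j) = (-1, j + 1)
    · have e := (hu _ (Or.inr (Or.inr (Or.inl ⟨rfl, h⟩)))).trans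
        (hu _ (Or.inr (Or.inr (Or.inr ⟨rfl, h1.1 h⟩)))).symm
      simp [Set.pair_eq_pair_iff] at e
    · constructor
      · intro a b
        have e := (hu _ (Or.inl ⟨rfl, a⟩)).trans (hu _ (Or.inr (Or.inl ⟨rfl, b⟩))).symm
        simp [Set.pair_eq_pair_iff] at e
      · intro a
        rcases hd with hd | hd | hd | hd
        · exact hd.2
        · exact absurd hd.2 a
        · exact absurd hd.2 h
        · exact absurd (h1.2 hd.2) h
  · intro h
    by_cases a : f (-1, j) = (0, j)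
    · have b : ¬f (-1, j) = (-1, j + 1) := by simp [a]
      exact ⟨_, Or.inl ⟨rfl, a⟩, fun d hd => by simpa [a, h.1 a, ← h1] using hd⟩
    · have c : f (-1, j + 1) = (0, j + 1) := by simpa [a] using h
      have b : ¬f (-1, j) = (-1, j + 1) := fun e => by simpa [c] using h2 e
      exact ⟨_, Or.inr (Or.inl ⟨rfl, c⟩), fun d hd => by simpa [a, b, c, ← h1] using hd⟩

/-- Symmetric matchings with the cell condition. -/
def FS (R : Set (ℤ × ℤ)) (Y : ℤ → Prop) : Set (ℤ × ℤ → ℤ × ℤ) :=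
  {f | f ∈ PM adjD R ∧ (∀ p, f (mirror p) = mirror (f p)) ∧
    ∀ j, Y j → (f (-1, j) = (0, j) ↔ f (-1, j + 1) ≠ (0, j + 1))}

theorem ncard_FS (hR : ∀ p, mirror p ∈ R ↔ p ∈ R) (Y : ℤ → Prop) : (FS R Y).ncard =
    {T | IsTiling R T ∧ (fun d => mirror '' d) '' T = T ∧
      ∀ j, Y j → ∃! d, d ∈ T ∧ d ⊆ block (-1, j)}.ncard := by
  refine Set.ncard_congr (fun f _ => til R f) ?_ (fun f g hf hg h => til_inj hf.1 hg.1 h) ?_
  · rintro f ⟨h1, h2, h3⟩
    exact ⟨til_tiling h1, (til_sym h1 hR).2 h2, fun j hj => (til_cell h1 h2 j).2 (h3 j hj)⟩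
  · rintro T ⟨h1, h2, h3⟩
    obtain ⟨f, hf, rfl⟩ := til_surj h1
    have h4 := (til_sym hf hR).1 h2
    exact ⟨f, ⟨hf, h4, fun j hj => (til_cell hf h4 j).1 (h3 j hj)⟩, rfl⟩

def lft (g : ℤ × ℤ → ℤ × ℤ) (p : ℤ × ℤ) : ℤ × ℤ := if (g p).1 < 0 then g p else mirror p

def full (g : ℤ × ℤ → ℤ × ℤ) (p : ℤ × ℤ) : ℤ × ℤ :=
  if p.1 < 0 then lft g p else mirror (lft g (mirror p))

theorem full_mirror (g : ℤ × ℤ → ℤ × ℤ) (p : ℤ × ℤ) : full g (mirror p) = mirror (full g p) := by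
  by_cases h : p.1 < 0
  · have : ¬(mirror p).1 < 0 := by simp only [mirror]; omega
    simp only [full, h, this, if_true, if_false, mirror_mirror]
  · have : (mirror p).1 < 0 := by simp only [mirror]; omega
    simp only [full, h, this, if_true, if_false, mirror_mirror]

theorem mirror_cases {P : ℤ × ℤ → Prop} (h1 : ∀ p, p.1 < 0 → P p) (h2 : ∀ p, P p → P (mirror p))
    (p : ℤ × ℤ) : P p := by
  by_cases h : p.1 < 0
  · exact h1 p h
  · rw [← mirror_mirror p]
    exact h2 _ (h1 _ (by simp only [mirror]; omega))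

noncomputable def half (e : ℤ) (R' : Set (ℤ × ℤ)) (f : ℤ × ℤ → ℤ × ℤ) (p : ℤ × ℤ) : ℤ × ℤ :=
  if p.1 < 0 then (if (f p).1 < 0 then f p else (0, p.2 - (p.2 - e) % 2))
  else if p ∈ R' then (if f (-1, p.2) = (0, p.2) then (-1, p.2) else (-1, p.2 + 1)) else p

theorem ncard_half {R' : Set (ℤ × ℤ)} {Y : ℤ → Prop} {e : ℤ} (hR : ∀ p, mirror p ∈ R ↔ p ∈ R)
    (hL : ∀ p : ℤ × ℤ, p.1 < 0 → (p ∈ R' ↔ p ∈ R))
    (hZ : ∀ p : ℤ × ℤ, 0 ≤ p.1 → (p ∈ R' ↔ p.1 = 0 ∧ Y p.2)) (hY : ∀ j, Y j → (j - e) % 2 = 0)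
    (hC : ∀ j, (-1, j) ∈ R → Y (j - (j - e) % 2)) : (PM adjH R').ncard = (FS R Y).ncard := by
  have key : ∀ g ∈ PM adjH R', ∀ p : ℤ × ℤ, p.1 < 0 → ¬(g p).1 < 0 →
      p.1 = -1 ∧ g p = (0, p.2 - (p.2 - e) % 2) := by
    intro g hg p h1 h2
    have hp : p ∈ R' := by
      by_contra hp
      rw [hg.2.1 p hp] at h2
      exact h2 h1
    have a := hg.2.2 p hp
    have b := hY _ ((hZ _ (not_lt.1 h2)).1 (PM.mem hg hp)).2
    simp only [adjH, Prod.ext_iff] at a ⊢
    omega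
  refine Set.ncard_congr (fun g _ => full g) ?_ ?_ ?_
  · intro g hg
    have fm := full_mirror g
    refine ⟨⟨mirror_cases (fun p hp => ?_) fun p hp => by rw [fm, fm, hp],
      mirror_cases (fun p hp hn => ?_) fun p hp hn => by rw [fm, hp (by rwa [hR] at hn)],
      mirror_cases (P := fun p => p ∈ R → adjD p (full g p)) (fun p hp hn => ?_) fun p hp hn => ?_⟩,
      fm, fun j hj => ?_⟩
    · by_cases h : (g p).1 < 0
      · simp only [full, lft, hp, h, if_true, hg.1]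
      · have : full g p = mirror p := by simp only [full, lft, hp, h, if_true, if_false]
        rw [this, fm, this, mirror_mirror]
    · simp only [full, lft, hp, hg.2.1 p (by rwa [hL p hp]), if_true]
    · have a := hg.2.2 p ((hL p hp).2 hn)
      by_cases h : (g p).1 < 0
      · simp only [full, lft, hp, h, if_true]
        simp only [adjH, adjD] at a ⊢; omega
      · have := (key g hg p hp h).1
        simp only [full, lft, hp, h, if_true, if_false, adjD, mirror, true_and]; omega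
    · have := hp ((hR p).1 hn)
      rw [fm]
      simp only [adjD, mirror] at this ⊢; omega
    · have hy := hY j hj
      have a := hg.2.2 (0, j) ((hZ _ le_rfl).2 ⟨rfl, hj⟩)
      have k : ∀ i, i - (i - e) % 2 = j → (full g (-1, i) = (0, i) ↔ g (0, j) = (-1, i)) := by
        intro i hi
        by_cases h : (g (-1, i)).1 < 0
        · simp only [full, lft, h, if_true, neg_lt_zero, zero_lt_one]
          constructor
          · intro e; rw [e] at h; simp at h
          · intro e; rw [← e, hg.1] at h; simp at h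
        · have := (key g hg _ (by simp) h).2
          rw [hi] at this
          simp [full, lft, h, mirror, ← this, hg.1]
      rw [ne_eq, k j (by omega), k (j + 1) (by omega)]
      simp only [adjH, adjD, Prod.ext_iff] at a ⊢; omega
  · have L : ∀ g ∈ PM adjH R', ∀ g' ∈ PM adjH R', full g = full g' → ∀ p : ℤ × ℤ, p.1 < 0 →
        g p = g' p := by
      intro g hg g' hg' h p hp
      have := congrFun h p
      simp only [full, lft, hp, if_true] at this
      have hm : ¬(mirror p).1 < 0 := by simp only [mirror]; omega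
      split_ifs at this with a b b
      · exact this
      · exact absurd (this ▸ a) hm
      · exact absurd (this ▸ b) hm
      · rw [(key g hg p hp a).2, (key g' hg' p hp b).2]
    intro g g' hg hg' h
    funext p
    by_cases hp : p.1 < 0
    · exact L g hg g' hg' h p hp
    by_cases hp' : p ∈ R'
    · have a := hg.2.2 p hp'
      have := L g hg g' hg' h (g p) (by simp only [adjH] at a; omega)
      rw [hg.1] at this
      conv_rhs => rw [this, hg'.1]
    · rw [hg.2.1 p hp', hg'.2.1 p hp']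
  · rintro f ⟨hf, hs, hc⟩
    have kf : ∀ p : ℤ × ℤ, p.1 < 0 → ¬(f p).1 < 0 → p ∈ R ∧ p.1 = -1 ∧ f p = (0, p.2) := by
      intro p h1 h2
      have hp : p ∈ R := by
        by_contra hp
        rw [hf.2.1 p hp] at h2
        exact h2 h1
      have a := hf.2.2 p hp
      refine ⟨hp, ?_⟩
      simp only [adjD, Prod.ext_iff] at a ⊢
      omega
    refine ⟨half e R' f, ⟨fun p => ?_, fun p hp => ?_, fun p hp => ?_⟩, ?_⟩
    · by_cases h1 : p.1 < 0
      · by_cases h2 : (f p).1 < 0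
        · simp only [half, h1, h2, if_true, hf.1]
        · obtain ⟨a, b, c⟩ := kf p h1 h2
          obtain ⟨i, j⟩ := p
          obtain rfl : i = -1 := b
          have hy := hC j a
          have hz : ((0 : ℤ), j - (j - e) % 2) ∈ R' := (hZ _ le_rfl).2 ⟨rfl, hy⟩
          have hc' := hc _ hy
          simp only [half, h1, h2, if_true, if_false, lt_irrefl, hz]
          rcases Int.emod_two_eq_zero_or_one (j - e) with h | h
          · simp [h, c]
          · rw [h, sub_add_cancel] at hc'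
            rw [h, if_neg (by simp [hc', c]), sub_add_cancel]
      · by_cases h2 : p ∈ R'
        · obtain ⟨a, b⟩ := (hZ p (not_lt.1 h1)).1 h2
          have hy := hY _ b
          by_cases h3 : f (-1, p.2) = (0, p.2)
          · simp [half, h2, h3, hy, Prod.ext_iff, a]
          · have h4 : f (-1, p.2 + 1) = (0, p.2 + 1) := by simpa [h3] using hc _ b
            simp [half, h2, h3, h4, Prod.ext_iff, a]; omega
        · simp only [half, h1, h2, if_false]
    · by_cases h1 : p.1 < 0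
      · simp only [half, h1, hf.2.1 p (by rwa [← hL p h1]), if_true]
      · simp only [half, h1, hp, if_false]
    · by_cases h1 : p.1 < 0
      · by_cases h2 : (f p).1 < 0
        · simp only [half, h1, h2, if_true]
          exact Or.inl ⟨h1, h2, hf.2.2 p ((hL p h1).1 hp)⟩
        · have := (kf p h1 h2).2.1
          simp only [half, h1, h2, if_true, if_false, adjH, adjD, true_and]; omega
      · have := ((hZ p (not_lt.1 h1)).1 hp).1
        simp only [half, h1, hp, if_true, if_false]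
        split_ifs <;> simp [adjH, this]
    · funext p
      refine mirror_cases (P := fun p => full (half e R' f) p = f p) (fun p h1 => ?_)
        (fun p hp => by rw [full_mirror, hs, hp]) p
      by_cases h2 : (f p).1 < 0
      · simp only [full, lft, half, h1, h2, if_true]
      · obtain ⟨-, b, c⟩ := kf p h1 h2
        simp [full, lft, half, c, mirror, b]

theorem mem_pts_hole (c : ℤ) (a b : ℕ) (p : ℤ × ℤ) : p ∈ pts (dg c) 0 (hole a b) ↔
    p.1 < 0 ∧ -(a + b + 1 : ℤ) ≤ p.1 ∧ p.1 + p.2 = c - 1 ∧ p.1 ≠ -a - 1 := by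
  have h : ∀ i, (hole a b)[i]? = some true ↔ i < a + b + 1 ∧ i ≠ a := by
    intro i
    simp only [hole, List.getElem?_append, List.length_replicate, List.getElem?_replicate,
      List.getElem?_cons]
    split_ifs <;> simp <;> omega
  simp only [pts, Set.mem_ofPred_eq, h, zero_add, dg, Prod.ext_iff]
  constructor
  · rintro ⟨i, hi⟩; omega
  · intro hp; exact ⟨(-p.1 - 1).toNat, by omega⟩

theorem ncard_O (a b : ℕ) : ((O (a + b + 1) (a + 1)).ncard : ℚ) = Psi (a + b + 1) (hole a b) := by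
  set m := a + b + 1 with hm
  rw [← cnt_Up m m _ (by simp [hole, hm]; omega), cnt]
  congr 1
  have hR : ∀ p, mirror p ∈ AD m \ {sw m (a + 1), mirror (sw m (a + 1))} ↔
      p ∈ AD m \ {sw m (a + 1), mirror (sw m (a + 1))} := by
    intro p
    simp only [Set.mem_sdiff, mem_AD, mirror, sw, Set.mem_insert_iff, Set.mem_singleton_iff,
      Prod.ext_iff]
    omega
  have hY : ∀ j : ℤ, (Black m (-1, j) ∧ block (-1, j) ⊆ AD m) ↔
      (j - m) % 2 = 0 ∧ -m ≤ j ∧ j ≤ m - 2 := by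
    intro j
    simp only [Black, Int.ModEq, block, Set.insert_subset_iff, Set.singleton_subset_iff, mem_AD]
    omega
  rw [ncard_half (e := m) (Y := fun j => Black m (-1, j) ∧ block (-1, j) ⊆ AD m) hR, ncard_FS hR]
  · simp only [O, and_imp]
  · intro p hp
    simp only [Set.mem_union, Up, Set.mem_ofPred_eq, mem_pts_hole, Set.mem_sdiff, mem_AD, mirror,
      sw, Set.mem_insert_iff, Set.mem_singleton_iff, Prod.ext_iff]
    omega
  · intro p hp
    simp only [hY, Set.mem_union, Up, Set.mem_ofPred_eq, mem_pts_hole]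
    omega
  · intro j hj; exact ((hY j).1 hj).1
  · intro j hj
    have := hj.1
    simp only [mem_AD] at this
    rw [hY]; omega

end Pool.Agent.Lib.MP_3b72de_co
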